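import Pool.Agent.P.MP_e74401_co.Data

namespace Pool.Agent.P.MP_e74401_co

def codeL (l : List ℕ) : ℕ := l.getD 0 0 + 8 * l.getD 1 0 + 64 * l.getD 2 0 + 512 * l.getD 3 0

def orbL (l : List ℕ) : List ℕ := l.permutations'.dedup.map codeL

def allv (e : ℕ) : List ℕ :=
  (List.range (e + 1)).flatMap fun a => (List.range (e + 1 - a)).flatMap fun b =>
    (List.range (e + 1 - a - b)).flatMap fun c => (List.range (e + 1 - a - b - c)).map fun d =>
      a + 8 * b + 64 * c + 512 * d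

def sumZ (Z : ℕ → ℤ) (c : ℕ) : List ℕ → ℤ
  | [] => 0
  | a :: t => Z (a + c) + sumZ Z c t

def stepZ (Z : ℕ → ℤ) (A B : List ℕ) (c : ℕ) : ℤ :=
  (B.length : ℤ) * sumZ Z c A - (A.length : ℤ) * sumZ Z c B

def chk : ℕ → ℕ → (ℕ → ℤ) → Bool
  | 0, _, _ => false
  | f + 1, e, Z => (allv e).all (fun c => decide (0 ≤ Z c)) &&
      pairs.all fun p => decide (e < p.1) || chk f (e - p.1) (stepZ Z p.2.1 p.2.2)

def Z0 (c : ℕ) : ℤ := Int.ofNat ((big >>> (8 * c)) % 256)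

theorem chk_true : chk 4 7 Z0 = true := by decide +kernel

theorem orbs_ok : ∀ p ∈ orbs, orbL p.1 = p.2 := by decide +kernel

def majL (l m : List ℕ) : Bool :=
  (List.range 5).all (fun k => decide ((m.take (k + 1)).sum ≤ (l.take (k + 1)).sum)) &&
    decide (l.sum = m.sum)

theorem pairs_ok : ∀ p ∈ orbs, ∀ q ∈ orbs, majL p.1 q.1 = true → p.1 ≠ q.1 →
    (p.1.sum, p.2, q.2) ∈ pairs := by decide +kernel

theorem parts_ok : ∀ a ∈ List.range 8, ∀ b ∈ List.range (a + 1), ∀ c ∈ List.range (b + 1),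
    ∀ d ∈ List.range (c + 1), ∀ e ∈ List.range (d + 1), a + b + c + d + e ≤ 7 →
    [a, b, c, d, e] ∈ orbs.map Prod.fst := by decide +kernel

end Pool.Agent.P.MP_e74401_co
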