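import Pool.Agent.P.MP_e74401_co.Defs

open MvPolynomial

namespace Pool.Agent.P.MP_e74401_co

variable {n : ℕ}

/-- The monomial with exponent vector `η`. -/
noncomputable def xpow (η : Fin n → ℕ) : MvPolynomial (Fin n) ℝ := ∏ i, X i ^ η i

/-- The set of rearrangements. -/
def orb (lam : Fin n → ℕ) : Finset (Fin n → ℕ) :=
  Finset.univ.image (fun w : Equiv.Perm (Fin n) => lam ∘ w)

lemma monomialSymm_eq (lam : Fin n → ℕ) : monomialSymm lam = ∑ η ∈ orb lam, xpow η := rfl

lemma xpow_eq (η : Fin n → ℕ) :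
    xpow η = monomial (Finsupp.equivFunOnFinite.symm η) (1 : ℝ) := by
  rw [monomial_eq, C_1, one_mul, Finsupp.prod_fintype _ _ (by simp)]
  simp [xpow]

lemma mem_orb {lam η : Fin n → ℕ} : η ∈ orb lam ↔ (List.ofFn η).Perm (List.ofFn lam) := by
  constructor
  · intro h
    obtain ⟨w, -, rfl⟩ := Finset.mem_image.mp h
    exact w.ofFn_comp_perm lam
  · intro h
    have h1 : η ∘ Tuple.sort η = lam ∘ Tuple.sort lam := by
      apply List.ofFn_injective
      exact ((((Tuple.sort η).ofFn_comp_perm η).trans h).trans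
        ((Tuple.sort lam).ofFn_comp_perm lam).symm).eq_of_pairwise'
        (Tuple.monotone_sort η).sortedLE_ofFn.pairwise
        (Tuple.monotone_sort lam).sortedLE_ofFn.pairwise
    refine Finset.mem_image.mpr ⟨Tuple.sort lam * (Tuple.sort η)⁻¹, Finset.mem_univ _, ?_⟩
    ext i
    have := congrFun h1 ((Tuple.sort η)⁻¹ i)
    simpa using this.symm

lemma sum_of_mem_orb {lam η : Fin n → ℕ} (h : η ∈ orb lam) : ∑ i, η i = ∑ i, lam i := by
  obtain ⟨w, -, rfl⟩ := Finset.mem_image.mp h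
  exact Equiv.sum_comp w lam

lemma orb_card_pos (lam : Fin n → ℕ) : 0 < (orb lam).card :=
  Finset.card_pos.mpr ⟨lam ∘ (1 : Equiv.Perm (Fin n)),
    Finset.mem_image.mpr ⟨1, Finset.mem_univ _, rfl⟩⟩

lemma eval_one_monomialSymm (lam : Fin n → ℕ) :
    eval (fun _ => (1 : ℝ)) (monomialSymm lam) = (orb lam).card := by
  simp [monomialSymm_eq, xpow]

/-- The linear functional with value `z η` at the monomial `x ^ η`. -/
noncomputable def Lz (z : (Fin n → ℕ) → ℝ) : MvPolynomial (Fin n) ℝ →ₗ[ℝ] ℝ :=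
  (basisMonomials (Fin n) ℝ).constr ℝ (fun s => z s)

lemma Lz_monomial (z : (Fin n → ℕ) → ℝ) (s : Fin n →₀ ℕ) : Lz z (monomial s 1) = z s := by
  have := (basisMonomials (Fin n) ℝ).constr_basis ℝ (fun s : Fin n →₀ ℕ => z s) s
  simpa [Lz] using this

lemma Lz_xpow (z : (Fin n → ℕ) → ℝ) (η : Fin n → ℕ) : Lz z (xpow η) = z η := by
  rw [xpow_eq, Lz_monomial]
  rfl

/-- Multiplying by a fixed polynomial transforms the functional. -/
lemma Lz_mul (z : (Fin n → ℕ) → ℝ) (g f : MvPolynomial (Fin n) ℝ) :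
    Lz z (g * f) = Lz (fun θ => Lz z (g * xpow θ)) f := by
  have : (Lz z).comp (LinearMap.mulLeft ℝ g) = Lz (fun θ => Lz z (g * xpow θ)) := by
    apply (basisMonomials (Fin n) ℝ).ext
    intro s
    simp only [coe_basisMonomials, LinearMap.comp_apply, LinearMap.mulLeft_apply, Lz_monomial,
      xpow_eq, Finsupp.equivFunOnFinite_symm_coe]
  exact LinearMap.congr_fun this f

lemma Lz_smul (c : ℝ) (z : (Fin n → ℕ) → ℝ) (f : MvPolynomial (Fin n) ℝ) :
    Lz (fun θ => c * z θ) f = c * Lz z f := by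
  have : Lz (fun θ => c * z θ) = c • Lz z := by
    apply (basisMonomials (Fin n) ℝ).ext
    intro s
    simp only [coe_basisMonomials, LinearMap.smul_apply, Lz_monomial, smul_eq_mul]
  rw [this]
  rfl

lemma xpow_mul (η θ : Fin n → ℕ) : xpow η * xpow θ = xpow (η + θ) := by
  simp [xpow, pow_add, Finset.prod_mul_distrib]

lemma Lz_M_mul (z : (Fin n → ℕ) → ℝ) (lam θ : Fin n → ℕ) :
    Lz z (normalized (monomialSymm lam) * xpow θ)
      = ((orb lam).card : ℝ)⁻¹ * ∑ η ∈ orb lam, z (η + θ) := by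
  rw [normalized, eval_one_monomialSymm, mul_assoc, C_mul', map_smul, monomialSymm_eq,
    Finset.sum_mul, map_sum, smul_eq_mul]
  simp only [xpow_mul, Lz_xpow]

/-- Polynomials on which all nonnegative functionals are nonnegative. -/
def NN (h : MvPolynomial (Fin n) ℝ) : Prop :=
  ∀ z : (Fin n → ℕ) → ℝ, (∀ θ, 0 ≤ z θ) → 0 ≤ Lz z h

/-- Muirhead differences. -/
def IsD (f : MvPolynomial (Fin n) ℝ) : Prop :=
  ∃ lam mu : Fin n → ℕ, Antitone lam ∧ Antitone mu ∧ Majorizes lam mu ∧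
    f = normalized (monomialSymm lam) - normalized (monomialSymm mu)

lemma NN_one : NN (1 : MvPolynomial (Fin n) ℝ) := by
  intro z hz
  have : (1 : MvPolynomial (Fin n) ℝ) = xpow 0 := by simp [xpow]
  rw [this, Lz_xpow]
  exact hz _

lemma NN_mul {h : MvPolynomial (Fin n) ℝ} (hh : NN h) (lam : Fin n → ℕ) :
    NN (normalized (monomialSymm lam) * h) := by
  intro z hz
  rw [Lz_mul]
  apply hh
  intro θ
  rw [Lz_M_mul]
  exact mul_nonneg (by positivity) (Finset.sum_nonneg fun _ _ => hz _)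

lemma closure_decomp {f : MvPolynomial (Fin n) ℝ}
    (hf : f ∈ Submonoid.closure (muirheadGenerators n)) :
    ∃ (l : List (MvPolynomial (Fin n) ℝ)) (h : MvPolynomial (Fin n) ℝ),
      (∀ D ∈ l, IsD D) ∧ NN h ∧ f = l.prod * h := by
  induction hf using Submonoid.closure_induction_left with
  | one => exact ⟨[], 1, by simp, NN_one, by simp⟩
  | mul_left x hx y _ ih =>
    obtain ⟨l, h, h1, h2, rfl⟩ := ih
    rcases hx with hx | ⟨lam, -, rfl⟩
    · refine ⟨x :: l, h, ?_, h2, by simp [mul_assoc]⟩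
      intro D hD
      rcases List.mem_cons.mp hD with rfl | hD
      · exact hx
      · exact h1 D hD
    · exact ⟨l, _, h1, NN_mul h2 lam, by ring⟩

/-- Functionals that are nonnegative on all products of generators. -/
def Good (z : (Fin n → ℕ) → ℝ) : Prop :=
  ∀ l : List (MvPolynomial (Fin n) ℝ), (∀ D ∈ l, IsD D) → ∀ h, NN h → 0 ≤ Lz z (l.prod * h)

lemma Good.nonneg {z : (Fin n → ℕ) → ℝ} (hz : Good z) {f : MvPolynomial (Fin n) ℝ}
    (hf : f ∈ muirheadSemiring n) : 0 ≤ Lz z f := by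
  induction hf using Submodule.span_induction with
  | mem x hx =>
    obtain ⟨l, h, h1, h2, rfl⟩ := closure_decomp hx
    exact hz l h1 h h2
  | zero => simp
  | add x y _ _ hx hy => rw [map_add]; exact add_nonneg hx hy
  | smul a x _ hx =>
    rw [NNReal.smul_def, map_smul, smul_eq_mul]
    exact mul_nonneg a.2 hx

lemma Good.smul {z : (Fin n → ℕ) → ℝ} (hz : Good z) {c : ℝ} (hc : 0 ≤ c) :
    Good (fun θ => c * z θ) := by
  intro l hl h hh
  rw [Lz_smul]
  exact mul_nonneg hc (hz l hl h hh)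

lemma good_zero : Good (fun _ : Fin n → ℕ => (0 : ℝ)) := by
  intro l _ h _
  have := Lz_smul 0 (fun _ : Fin n → ℕ => (0 : ℝ)) (l.prod * h)
  simp only [zero_mul] at this
  exact this.ge

lemma good_of_step {z : (Fin n → ℕ) → ℝ} (h0 : ∀ θ, 0 ≤ z θ)
    (h1 : ∀ lam mu : Fin n → ℕ, Antitone lam → Antitone mu → Majorizes lam mu → lam ≠ mu →
      Good (fun θ => ((orb lam).card : ℝ)⁻¹ * ∑ η ∈ orb lam, z (η + θ) -
        ((orb mu).card : ℝ)⁻¹ * ∑ η ∈ orb mu, z (η + θ))) : Good z := by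
  intro l hl h hh
  cases l with
  | nil => simpa using hh z h0
  | cons D l =>
    obtain ⟨lam, mu, a1, a2, a3, rfl⟩ := hl D (by simp)
    by_cases hne : lam = mu
    · subst hne
      simp
    · rw [List.prod_cons, mul_assoc, Lz_mul]
      simp only [sub_mul, map_sub, Lz_M_mul]
      exact h1 lam mu a1 a2 a3 hne l (fun x hx => hl x (by simp [hx])) h hh

end Pool.Agent.P.MP_e74401_co
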