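import Mathlib

/-!
Monomial symmetric polynomials, the Muirhead semiring and Jack polynomials in `n` variables.
A partition with at most `n` parts is an antitone map `Fin n → ℕ`.
-/

open MvPolynomial

namespace Pool.Agent.P.MP_e74401_co

variable {n : ℕ}

/-- `lam` majorizes `mu`: all initial sums of `lam` are at least those of `mu`, and the total
sums agree. -/
def Majorizes (lam mu : Fin n → ℕ) : Prop :=
  (∀ k : Fin n, ∑ i ∈ Finset.Iic k, mu i ≤ ∑ i ∈ Finset.Iic k, lam i) ∧ ∑ i, lam i = ∑ i, mu i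

/-- The monomial symmetric polynomial `m_lam`: the sum of `x ^ η` over the distinct
rearrangements `η` of `lam`. -/
noncomputable def monomialSymm (lam : Fin n → ℕ) : MvPolynomial (Fin n) ℝ :=
  ∑ η ∈ Finset.univ.image (fun w : Equiv.Perm (Fin n) => lam ∘ w), ∏ i, X i ^ η i

/-- The normalization `f / f(1, …, 1)`. -/
noncomputable def normalized (f : MvPolynomial (Fin n) ℝ) : MvPolynomial (Fin n) ℝ :=
  C (eval (fun _ => 1) f)⁻¹ * f

/-- The generators `M_lam - M_mu` (`lam` majorizing `mu`) and `M_lam`. -/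
def muirheadGenerators (n : ℕ) : Set (MvPolynomial (Fin n) ℝ) :=
  {f | ∃ lam mu : Fin n → ℕ, Antitone lam ∧ Antitone mu ∧ Majorizes lam mu ∧
      f = normalized (monomialSymm lam) - normalized (monomialSymm mu)} ∪
    {f | ∃ lam : Fin n → ℕ, Antitone lam ∧ f = normalized (monomialSymm lam)}

/-- The Muirhead semiring: nonnegative real combinations of finite products of generators. -/
noncomputable def muirheadSemiring (n : ℕ) : Submodule NNReal (MvPolynomial (Fin n) ℝ) :=
  Submodule.span NNReal (Submonoid.closure (muirheadGenerators n) : Set (MvPolynomial (Fin n) ℝ))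

/-- `f` is the monic Jack polynomial `P_lam` with Jack parameter `α`: it is `m_lam` plus a
linear combination of the `m_mu` with `mu ≠ lam` majorized by `lam`, and it is an eigenfunction
of the Laplace-Beltrami operator
`(α / 2) ∑ᵢ xᵢ² ∂ᵢ² + ∑_{i ≠ j} xᵢ² / (xᵢ - xⱼ) ∂ᵢ` (evaluated at points with distinct
coordinates). -/
def IsJack (α : ℝ) (lam : Fin n → ℕ) (f : MvPolynomial (Fin n) ℝ) : Prop :=
  f - monomialSymm lam ∈ Submodule.span ℝ
      {g | ∃ mu : Fin n → ℕ, Antitone mu ∧ Majorizes lam mu ∧ mu ≠ lam ∧ g = monomialSymm mu} ∧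
    ∃ e : ℝ, ∀ x : Fin n → ℝ, Function.Injective x →
      α / 2 * ∑ i, x i ^ 2 * eval x (pderiv i (pderiv i f)) +
        ∑ i, ∑ j ∈ Finset.univ.erase i, x i ^ 2 / (x i - x j) * eval x (pderiv i f) =
          e * eval x f

end Pool.Agent.P.MP_e74401_co
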