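import Pool.Agent.P.MP_e74401_co.MDefs

namespace Pool.Agent.P.MP_e74401_co

def S1 (a b c d e : ℝ) : ℝ :=
  4 * a ^ 4 * b * c * d + 4 * a ^ 4 * b * c * e + 4 * a ^ 4 * b * d * e + 4 * a ^ 4 * c * d * e +
  a * b ^ 4 * c * d + a * b ^ 4 * c * e + a * b ^ 4 * d * e + a * b * c ^ 4 * d + a * b * c ^ 4 *
  e + a * b * c * d ^ 4 + a * b * c * e ^ 4 + a * b * d ^ 4 * e + a * b * d * e ^ 4 + a * c ^ 4 *
  d * e + a * c * d ^ 4 * e + a * c * d * e ^ 4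

def Q1 (a b c d e : ℝ) : ℝ :=
  4 * a ^ 4 * b * c * d + 4 * a ^ 4 * b * c * e + 4 * a ^ 4 * b * d * e + 4 * a ^ 4 * c * d * e +
  3 * a ^ 3 * b ^ 2 * c * d + 3 * a ^ 3 * b ^ 2 * c * e + 3 * a ^ 3 * b ^ 2 * d * e + 4 * a ^ 3 *
  b * c * d * e + 3 * a ^ 2 * b ^ 3 * c * d + 3 * a ^ 2 * b ^ 3 * c * e + 3 * a ^ 2 * b ^ 3 * d *
  e + 4 * a ^ 2 * b ^ 2 * c * d * e + 4 * a * b ^ 4 * c * d + 4 * a * b ^ 4 * c * e + 4 * a * b ^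
  4 * d * e + 4 * a * b ^ 3 * c * d * e + a * b * c ^ 4 * d + a * b * c ^ 4 * e + a * b * c * d ^
  4 + a * b * c * e ^ 4 + a * b * d ^ 4 * e + a * b * d * e ^ 4 + a * c ^ 4 * d * e + a * c * d ^
  4 * e + a * c * d * e ^ 4 + 4 * b ^ 4 * c * d * e + b * c ^ 4 * d * e + b * c * d ^ 4 * e + b *
  c * d * e ^ 4

lemma LL1 : (List.ofFn nu1).permutations'.dedup =
    [[4, 1, 1, 1, 0], [1, 4, 1, 1, 0], [1, 1, 4, 1, 0], [1, 1, 1, 4, 0], [1, 1, 1, 0, 4], [4, 1, 1,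
    0, 1], [1, 4, 1, 0, 1], [1, 1, 4, 0, 1], [1, 1, 0, 4, 1], [1, 1, 0, 1, 4], [4, 1, 0, 1, 1], [1,
    4, 0, 1, 1], [1, 0, 4, 1, 1], [1, 0, 1, 4, 1], [1, 0, 1, 1, 4], [4, 0, 1, 1, 1], [0, 4, 1, 1,
    1], [0, 1, 4, 1, 1], [0, 1, 1, 4, 1], [0, 1, 1, 1, 4]] := by
  decide +kernel

lemma em1 (x : Fin 5 → ℝ) :
    ∑ η ∈ orb nu1, E x η = m1 (x 0) (x 1) (x 2) (x 3) (x 4) := by
  rw [sum_orb, LL1]
  simp only [List.map_cons, List.map_nil, List.sum_cons, List.sum_nil, E_vec, m1]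
  ring

lemma es1_0 (x : Fin 5 → ℝ) :
    ∑ η ∈ orb nu1, (η 0 : ℝ) * E x η = S1 (x 0) (x 1) (x 2) (x 3) (x 4) := by
  rw [sum_orb, LL1]
  simp only [List.map_cons, List.map_nil, List.sum_cons, List.sum_nil, E_vec, vec0,
    Nat.cast_ofNat, Nat.cast_zero, Nat.cast_one, S1]
  ring

lemma es1_1 (x : Fin 5 → ℝ) :
    ∑ η ∈ orb nu1, (η 1 : ℝ) * E x η = S1 (x 1) (x 0) (x 2) (x 3) (x 4) := by
  rw [sum_orb, LL1]
  simp only [List.map_cons, List.map_nil, List.sum_cons, List.sum_nil, E_vec, vec1,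
    Nat.cast_ofNat, Nat.cast_zero, Nat.cast_one, S1]
  ring

lemma es1_2 (x : Fin 5 → ℝ) :
    ∑ η ∈ orb nu1, (η 2 : ℝ) * E x η = S1 (x 2) (x 0) (x 1) (x 3) (x 4) := by
  rw [sum_orb, LL1]
  simp only [List.map_cons, List.map_nil, List.sum_cons, List.sum_nil, E_vec, vec2,
    Nat.cast_ofNat, Nat.cast_zero, Nat.cast_one, S1]
  ring

lemma es1_3 (x : Fin 5 → ℝ) :
    ∑ η ∈ orb nu1, (η 3 : ℝ) * E x η = S1 (x 3) (x 0) (x 1) (x 2) (x 4) := by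
  rw [sum_orb, LL1]
  simp only [List.map_cons, List.map_nil, List.sum_cons, List.sum_nil, E_vec, vec3,
    Nat.cast_ofNat, Nat.cast_zero, Nat.cast_one, S1]
  ring

lemma es1_4 (x : Fin 5 → ℝ) :
    ∑ η ∈ orb nu1, (η 4 : ℝ) * E x η = S1 (x 4) (x 0) (x 1) (x 2) (x 3) := by
  rw [sum_orb, LL1]
  simp only [List.map_cons, List.map_nil, List.sum_cons, List.sum_nil, E_vec, vec4,
    Nat.cast_ofNat, Nat.cast_zero, Nat.cast_one, S1]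
  ring

lemma dop1 (α : ℝ) (x : Fin 5 → ℝ) (hx : Function.Injective x) :
    Dop α x (monomialSymm nu1) = (α / 2 * 12 + 22) * m1 (x 0) (x 1) (x 2) (x 3) (x 4) +
      3 * m4 (x 0) (x 1) (x 2) (x 3) (x 4) +
      16 * m5 (x 0) (x 1) (x 2) (x 3) (x 4) +
      4 * m7 (x 0) (x 1) (x 2) (x 3) (x 4) := by
  have hr : (∑ i, (nu1 i : ℝ) * (nu1 i - 1)) = 12 := by
    simp [Fin.sum_univ_five, nu1]
    norm_num
  rw [Dop_monomialSymm, sum_pairs, hr, em1, es1_0, es1_1, es1_2, es1_3, es1_4]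
  rw [pair_eq (Q := Q1 (x 0) (x 1) (x 2) (x 3) (x 4)) (hx.ne (by decide : (0 : Fin 5) ≠ 1))
    (by simp only [S1, Q1]; ring)]
  rw [pair_eq (Q := Q1 (x 0) (x 2) (x 1) (x 3) (x 4)) (hx.ne (by decide : (0 : Fin 5) ≠ 2))
    (by simp only [S1, Q1]; ring)]
  rw [pair_eq (Q := Q1 (x 0) (x 3) (x 1) (x 2) (x 4)) (hx.ne (by decide : (0 : Fin 5) ≠ 3))
    (by simp only [S1, Q1]; ring)]
  rw [pair_eq (Q := Q1 (x 0) (x 4) (x 1) (x 2) (x 3)) (hx.ne (by decide : (0 : Fin 5) ≠ 4))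
    (by simp only [S1, Q1]; ring)]
  rw [pair_eq (Q := Q1 (x 1) (x 2) (x 0) (x 3) (x 4)) (hx.ne (by decide : (1 : Fin 5) ≠ 2))
    (by simp only [S1, Q1]; ring)]
  rw [pair_eq (Q := Q1 (x 1) (x 3) (x 0) (x 2) (x 4)) (hx.ne (by decide : (1 : Fin 5) ≠ 3))
    (by simp only [S1, Q1]; ring)]
  rw [pair_eq (Q := Q1 (x 1) (x 4) (x 0) (x 2) (x 3)) (hx.ne (by decide : (1 : Fin 5) ≠ 4))
    (by simp only [S1, Q1]; ring)]
  rw [pair_eq (Q := Q1 (x 2) (x 3) (x 0) (x 1) (x 4)) (hx.ne (by decide : (2 : Fin 5) ≠ 3))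
    (by simp only [S1, Q1]; ring)]
  rw [pair_eq (Q := Q1 (x 2) (x 4) (x 0) (x 1) (x 3)) (hx.ne (by decide : (2 : Fin 5) ≠ 4))
    (by simp only [S1, Q1]; ring)]
  rw [pair_eq (Q := Q1 (x 3) (x 4) (x 0) (x 1) (x 2)) (hx.ne (by decide : (3 : Fin 5) ≠ 4))
    (by simp only [S1, Q1]; ring)]
  simp only [Q1, m1, m4, m5, m7]
  ring

end Pool.Agent.P.MP_e74401_co
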