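import Pool.Agent.P.MP_e74401_co.MDefs

namespace Pool.Agent.P.MP_e74401_co

def S2 (a b c d e : ℝ) : ℝ :=
  3 * a ^ 3 * b ^ 3 * c + 3 * a ^ 3 * b ^ 3 * d + 3 * a ^ 3 * b ^ 3 * e + 3 * a ^ 3 * b * c ^ 3 +
  3 * a ^ 3 * b * d ^ 3 + 3 * a ^ 3 * b * e ^ 3 + 3 * a ^ 3 * c ^ 3 * d + 3 * a ^ 3 * c ^ 3 * e +
  3 * a ^ 3 * c * d ^ 3 + 3 * a ^ 3 * c * e ^ 3 + 3 * a ^ 3 * d ^ 3 * e + 3 * a ^ 3 * d * e ^ 3 +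
  a * b ^ 3 * c ^ 3 + a * b ^ 3 * d ^ 3 + a * b ^ 3 * e ^ 3 + a * c ^ 3 * d ^ 3 + a * c ^ 3 * e ^
  3 + a * d ^ 3 * e ^ 3

def Q2 (a b c d e : ℝ) : ℝ :=
  3 * a ^ 3 * b ^ 3 * c + 3 * a ^ 3 * b ^ 3 * d + 3 * a ^ 3 * b ^ 3 * e + 3 * a ^ 3 * b * c ^ 3 +
  3 * a ^ 3 * b * d ^ 3 + 3 * a ^ 3 * b * e ^ 3 + 3 * a ^ 3 * c ^ 3 * d + 3 * a ^ 3 * c ^ 3 * e +
  3 * a ^ 3 * c * d ^ 3 + 3 * a ^ 3 * c * e ^ 3 + 3 * a ^ 3 * d ^ 3 * e + 3 * a ^ 3 * d * e ^ 3 +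
  2 * a ^ 2 * b ^ 2 * c ^ 3 + 2 * a ^ 2 * b ^ 2 * d ^ 3 + 2 * a ^ 2 * b ^ 2 * e ^ 3 + 3 * a ^ 2 *
  b * c ^ 3 * d + 3 * a ^ 2 * b * c ^ 3 * e + 3 * a ^ 2 * b * c * d ^ 3 + 3 * a ^ 2 * b * c * e ^
  3 + 3 * a ^ 2 * b * d ^ 3 * e + 3 * a ^ 2 * b * d * e ^ 3 + 3 * a * b ^ 3 * c ^ 3 + 3 * a * b ^
  3 * d ^ 3 + 3 * a * b ^ 3 * e ^ 3 + 3 * a * b ^ 2 * c ^ 3 * d + 3 * a * b ^ 2 * c ^ 3 * e + 3 *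
  a * b ^ 2 * c * d ^ 3 + 3 * a * b ^ 2 * c * e ^ 3 + 3 * a * b ^ 2 * d ^ 3 * e + 3 * a * b ^ 2 *
  d * e ^ 3 + a * c ^ 3 * d ^ 3 + a * c ^ 3 * e ^ 3 + a * d ^ 3 * e ^ 3 + 3 * b ^ 3 * c ^ 3 * d +
  3 * b ^ 3 * c ^ 3 * e + 3 * b ^ 3 * c * d ^ 3 + 3 * b ^ 3 * c * e ^ 3 + 3 * b ^ 3 * d ^ 3 * e +
  3 * b ^ 3 * d * e ^ 3 + b * c ^ 3 * d ^ 3 + b * c ^ 3 * e ^ 3 + b * d ^ 3 * e ^ 3

lemma LL2 : (List.ofFn nu2).permutations'.dedup =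
    [[3, 3, 1, 0, 0], [3, 1, 3, 0, 0], [1, 3, 3, 0, 0], [3, 1, 0, 3, 0], [1, 3, 0, 3, 0], [1, 0, 3,
    3, 0], [3, 1, 0, 0, 3], [1, 3, 0, 0, 3], [1, 0, 3, 0, 3], [1, 0, 0, 3, 3], [3, 3, 0, 1, 0], [3,
    0, 3, 1, 0], [0, 3, 3, 1, 0], [3, 0, 1, 3, 0], [0, 3, 1, 3, 0], [0, 1, 3, 3, 0], [3, 0, 1, 0,
    3], [0, 3, 1, 0, 3], [0, 1, 3, 0, 3], [0, 1, 0, 3, 3], [3, 3, 0, 0, 1], [3, 0, 3, 0, 1], [0, 3,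
    3, 0, 1], [3, 0, 0, 3, 1], [0, 3, 0, 3, 1], [0, 0, 3, 3, 1], [3, 0, 0, 1, 3], [0, 3, 0, 1, 3],
    [0, 0, 3, 1, 3], [0, 0, 1, 3, 3]] := by
  decide +kernel

lemma em2 (x : Fin 5 → ℝ) :
    ∑ η ∈ orb nu2, E x η = m2 (x 0) (x 1) (x 2) (x 3) (x 4) := by
  rw [sum_orb, LL2]
  simp only [List.map_cons, List.map_nil, List.sum_cons, List.sum_nil, E_vec, m2]
  ring

lemma es2_0 (x : Fin 5 → ℝ) :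
    ∑ η ∈ orb nu2, (η 0 : ℝ) * E x η = S2 (x 0) (x 1) (x 2) (x 3) (x 4) := by
  rw [sum_orb, LL2]
  simp only [List.map_cons, List.map_nil, List.sum_cons, List.sum_nil, E_vec, vec0,
    Nat.cast_ofNat, Nat.cast_zero, Nat.cast_one, S2]
  ring

lemma es2_1 (x : Fin 5 → ℝ) :
    ∑ η ∈ orb nu2, (η 1 : ℝ) * E x η = S2 (x 1) (x 0) (x 2) (x 3) (x 4) := by
  rw [sum_orb, LL2]
  simp only [List.map_cons, List.map_nil, List.sum_cons, List.sum_nil, E_vec, vec1,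
    Nat.cast_ofNat, Nat.cast_zero, Nat.cast_one, S2]
  ring

lemma es2_2 (x : Fin 5 → ℝ) :
    ∑ η ∈ orb nu2, (η 2 : ℝ) * E x η = S2 (x 2) (x 0) (x 1) (x 3) (x 4) := by
  rw [sum_orb, LL2]
  simp only [List.map_cons, List.map_nil, List.sum_cons, List.sum_nil, E_vec, vec2,
    Nat.cast_ofNat, Nat.cast_zero, Nat.cast_one, S2]
  ring

lemma es2_3 (x : Fin 5 → ℝ) :
    ∑ η ∈ orb nu2, (η 3 : ℝ) * E x η = S2 (x 3) (x 0) (x 1) (x 2) (x 4) := by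
  rw [sum_orb, LL2]
  simp only [List.map_cons, List.map_nil, List.sum_cons, List.sum_nil, E_vec, vec3,
    Nat.cast_ofNat, Nat.cast_zero, Nat.cast_one, S2]
  ring

lemma es2_4 (x : Fin 5 → ℝ) :
    ∑ η ∈ orb nu2, (η 4 : ℝ) * E x η = S2 (x 4) (x 0) (x 1) (x 2) (x 3) := by
  rw [sum_orb, LL2]
  simp only [List.map_cons, List.map_nil, List.sum_cons, List.sum_nil, E_vec, vec4,
    Nat.cast_ofNat, Nat.cast_zero, Nat.cast_one, S2]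
  ring

lemma dop2 (α : ℝ) (x : Fin 5 → ℝ) (hx : Function.Injective x) :
    Dop α x (monomialSymm nu2) = (α / 2 * 12 + 23) * m2 (x 0) (x 1) (x 2) (x 3) (x 4) +
      2 * m3 (x 0) (x 1) (x 2) (x 3) (x 4) +
      6 * m4 (x 0) (x 1) (x 2) (x 3) (x 4) := by
  have hr : (∑ i, (nu2 i : ℝ) * (nu2 i - 1)) = 12 := by
    simp [Fin.sum_univ_five, nu2]
    norm_num
  rw [Dop_monomialSymm, sum_pairs, hr, em2, es2_0, es2_1, es2_2, es2_3, es2_4]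
  rw [pair_eq (Q := Q2 (x 0) (x 1) (x 2) (x 3) (x 4)) (hx.ne (by decide : (0 : Fin 5) ≠ 1))
    (by simp only [S2, Q2]; ring)]
  rw [pair_eq (Q := Q2 (x 0) (x 2) (x 1) (x 3) (x 4)) (hx.ne (by decide : (0 : Fin 5) ≠ 2))
    (by simp only [S2, Q2]; ring)]
  rw [pair_eq (Q := Q2 (x 0) (x 3) (x 1) (x 2) (x 4)) (hx.ne (by decide : (0 : Fin 5) ≠ 3))
    (by simp only [S2, Q2]; ring)]
  rw [pair_eq (Q := Q2 (x 0) (x 4) (x 1) (x 2) (x 3)) (hx.ne (by decide : (0 : Fin 5) ≠ 4))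
    (by simp only [S2, Q2]; ring)]
  rw [pair_eq (Q := Q2 (x 1) (x 2) (x 0) (x 3) (x 4)) (hx.ne (by decide : (1 : Fin 5) ≠ 2))
    (by simp only [S2, Q2]; ring)]
  rw [pair_eq (Q := Q2 (x 1) (x 3) (x 0) (x 2) (x 4)) (hx.ne (by decide : (1 : Fin 5) ≠ 3))
    (by simp only [S2, Q2]; ring)]
  rw [pair_eq (Q := Q2 (x 1) (x 4) (x 0) (x 2) (x 3)) (hx.ne (by decide : (1 : Fin 5) ≠ 4))
    (by simp only [S2, Q2]; ring)]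
  rw [pair_eq (Q := Q2 (x 2) (x 3) (x 0) (x 1) (x 4)) (hx.ne (by decide : (2 : Fin 5) ≠ 3))
    (by simp only [S2, Q2]; ring)]
  rw [pair_eq (Q := Q2 (x 2) (x 4) (x 0) (x 1) (x 3)) (hx.ne (by decide : (2 : Fin 5) ≠ 4))
    (by simp only [S2, Q2]; ring)]
  rw [pair_eq (Q := Q2 (x 3) (x 4) (x 0) (x 1) (x 2)) (hx.ne (by decide : (3 : Fin 5) ≠ 4))
    (by simp only [S2, Q2]; ring)]
  simp only [Q2, m2, m3, m4]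
  ring

end Pool.Agent.P.MP_e74401_co
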