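import Pool.Agent.P.MP_e74401_co.MDefs

namespace Pool.Agent.P.MP_e74401_co

def S3 (a b c d e : ℝ) : ℝ :=
  3 * a ^ 3 * b ^ 2 * c ^ 2 + 3 * a ^ 3 * b ^ 2 * d ^ 2 + 3 * a ^ 3 * b ^ 2 * e ^ 2 + 3 * a ^ 3 *
  c ^ 2 * d ^ 2 + 3 * a ^ 3 * c ^ 2 * e ^ 2 + 3 * a ^ 3 * d ^ 2 * e ^ 2 + 2 * a ^ 2 * b ^ 3 * c ^
  2 + 2 * a ^ 2 * b ^ 3 * d ^ 2 + 2 * a ^ 2 * b ^ 3 * e ^ 2 + 2 * a ^ 2 * b ^ 2 * c ^ 3 + 2 * a ^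
  2 * b ^ 2 * d ^ 3 + 2 * a ^ 2 * b ^ 2 * e ^ 3 + 2 * a ^ 2 * c ^ 3 * d ^ 2 + 2 * a ^ 2 * c ^ 3 *
  e ^ 2 + 2 * a ^ 2 * c ^ 2 * d ^ 3 + 2 * a ^ 2 * c ^ 2 * e ^ 3 + 2 * a ^ 2 * d ^ 3 * e ^ 2 + 2 *
  a ^ 2 * d ^ 2 * e ^ 3

def Q3 (a b c d e : ℝ) : ℝ :=
  3 * a ^ 3 * b ^ 2 * c ^ 2 + 3 * a ^ 3 * b ^ 2 * d ^ 2 + 3 * a ^ 3 * b ^ 2 * e ^ 2 + 3 * a ^ 3 *
  c ^ 2 * d ^ 2 + 3 * a ^ 3 * c ^ 2 * e ^ 2 + 3 * a ^ 3 * d ^ 2 * e ^ 2 + 3 * a ^ 2 * b ^ 3 * c ^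
  2 + 3 * a ^ 2 * b ^ 3 * d ^ 2 + 3 * a ^ 2 * b ^ 3 * e ^ 2 + 2 * a ^ 2 * b ^ 2 * c ^ 3 + 2 * a ^
  2 * b ^ 2 * d ^ 3 + 2 * a ^ 2 * b ^ 2 * e ^ 3 + 3 * a ^ 2 * b * c ^ 2 * d ^ 2 + 3 * a ^ 2 * b *
  c ^ 2 * e ^ 2 + 3 * a ^ 2 * b * d ^ 2 * e ^ 2 + 2 * a ^ 2 * c ^ 3 * d ^ 2 + 2 * a ^ 2 * c ^ 3 *
  e ^ 2 + 2 * a ^ 2 * c ^ 2 * d ^ 3 + 2 * a ^ 2 * c ^ 2 * e ^ 3 + 2 * a ^ 2 * d ^ 3 * e ^ 2 + 2 *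
  a ^ 2 * d ^ 2 * e ^ 3 + 3 * a * b ^ 2 * c ^ 2 * d ^ 2 + 3 * a * b ^ 2 * c ^ 2 * e ^ 2 + 3 * a *
  b ^ 2 * d ^ 2 * e ^ 2 + 2 * a * b * c ^ 3 * d ^ 2 + 2 * a * b * c ^ 3 * e ^ 2 + 2 * a * b * c ^
  2 * d ^ 3 + 2 * a * b * c ^ 2 * e ^ 3 + 2 * a * b * d ^ 3 * e ^ 2 + 2 * a * b * d ^ 2 * e ^ 3 +
  3 * b ^ 3 * c ^ 2 * d ^ 2 + 3 * b ^ 3 * c ^ 2 * e ^ 2 + 3 * b ^ 3 * d ^ 2 * e ^ 2 + 2 * b ^ 2 *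
  c ^ 3 * d ^ 2 + 2 * b ^ 2 * c ^ 3 * e ^ 2 + 2 * b ^ 2 * c ^ 2 * d ^ 3 + 2 * b ^ 2 * c ^ 2 * e ^
  3 + 2 * b ^ 2 * d ^ 3 * e ^ 2 + 2 * b ^ 2 * d ^ 2 * e ^ 3

lemma LL3 : (List.ofFn nu3).permutations'.dedup =
    [[3, 2, 2, 0, 0], [2, 3, 2, 0, 0], [2, 2, 3, 0, 0], [2, 2, 0, 3, 0], [2, 2, 0, 0, 3], [3, 2, 0,
    2, 0], [2, 3, 0, 2, 0], [2, 0, 3, 2, 0], [2, 0, 2, 3, 0], [2, 0, 2, 0, 3], [3, 0, 2, 2, 0], [0,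
    3, 2, 2, 0], [0, 2, 3, 2, 0], [0, 2, 2, 3, 0], [0, 2, 2, 0, 3], [3, 2, 0, 0, 2], [2, 3, 0, 0,
    2], [2, 0, 3, 0, 2], [2, 0, 0, 3, 2], [2, 0, 0, 2, 3], [3, 0, 2, 0, 2], [0, 3, 2, 0, 2], [0, 2,
    3, 0, 2], [0, 2, 0, 3, 2], [0, 2, 0, 2, 3], [3, 0, 0, 2, 2], [0, 3, 0, 2, 2], [0, 0, 3, 2, 2],
    [0, 0, 2, 3, 2], [0, 0, 2, 2, 3]] := by
  decide +kernel

lemma em3 (x : Fin 5 → ℝ) :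
    ∑ η ∈ orb nu3, E x η = m3 (x 0) (x 1) (x 2) (x 3) (x 4) := by
  rw [sum_orb, LL3]
  simp only [List.map_cons, List.map_nil, List.sum_cons, List.sum_nil, E_vec, m3]
  ring

lemma es3_0 (x : Fin 5 → ℝ) :
    ∑ η ∈ orb nu3, (η 0 : ℝ) * E x η = S3 (x 0) (x 1) (x 2) (x 3) (x 4) := by
  rw [sum_orb, LL3]
  simp only [List.map_cons, List.map_nil, List.sum_cons, List.sum_nil, E_vec, vec0,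
    Nat.cast_ofNat, Nat.cast_zero, Nat.cast_one, S3]
  ring

lemma es3_1 (x : Fin 5 → ℝ) :
    ∑ η ∈ orb nu3, (η 1 : ℝ) * E x η = S3 (x 1) (x 0) (x 2) (x 3) (x 4) := by
  rw [sum_orb, LL3]
  simp only [List.map_cons, List.map_nil, List.sum_cons, List.sum_nil, E_vec, vec1,
    Nat.cast_ofNat, Nat.cast_zero, Nat.cast_one, S3]
  ring

lemma es3_2 (x : Fin 5 → ℝ) :
    ∑ η ∈ orb nu3, (η 2 : ℝ) * E x η = S3 (x 2) (x 0) (x 1) (x 3) (x 4) := by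
  rw [sum_orb, LL3]
  simp only [List.map_cons, List.map_nil, List.sum_cons, List.sum_nil, E_vec, vec2,
    Nat.cast_ofNat, Nat.cast_zero, Nat.cast_one, S3]
  ring

lemma es3_3 (x : Fin 5 → ℝ) :
    ∑ η ∈ orb nu3, (η 3 : ℝ) * E x η = S3 (x 3) (x 0) (x 1) (x 2) (x 4) := by
  rw [sum_orb, LL3]
  simp only [List.map_cons, List.map_nil, List.sum_cons, List.sum_nil, E_vec, vec3,
    Nat.cast_ofNat, Nat.cast_zero, Nat.cast_one, S3]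
  ring

lemma es3_4 (x : Fin 5 → ℝ) :
    ∑ η ∈ orb nu3, (η 4 : ℝ) * E x η = S3 (x 4) (x 0) (x 1) (x 2) (x 3) := by
  rw [sum_orb, LL3]
  simp only [List.map_cons, List.map_nil, List.sum_cons, List.sum_nil, E_vec, vec4,
    Nat.cast_ofNat, Nat.cast_zero, Nat.cast_one, S3]
  ring

lemma dop3 (α : ℝ) (x : Fin 5 → ℝ) (hx : Function.Injective x) :
    Dop α x (monomialSymm nu3) = (α / 2 * 10 + 22) * m3 (x 0) (x 1) (x 2) (x 3) (x 4) +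
      2 * m4 (x 0) (x 1) (x 2) (x 3) (x 4) +
      9 * m6 (x 0) (x 1) (x 2) (x 3) (x 4) := by
  have hr : (∑ i, (nu3 i : ℝ) * (nu3 i - 1)) = 10 := by
    simp [Fin.sum_univ_five, nu3]
    norm_num
  rw [Dop_monomialSymm, sum_pairs, hr, em3, es3_0, es3_1, es3_2, es3_3, es3_4]
  rw [pair_eq (Q := Q3 (x 0) (x 1) (x 2) (x 3) (x 4)) (hx.ne (by decide : (0 : Fin 5) ≠ 1))
    (by simp only [S3, Q3]; ring)]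
  rw [pair_eq (Q := Q3 (x 0) (x 2) (x 1) (x 3) (x 4)) (hx.ne (by decide : (0 : Fin 5) ≠ 2))
    (by simp only [S3, Q3]; ring)]
  rw [pair_eq (Q := Q3 (x 0) (x 3) (x 1) (x 2) (x 4)) (hx.ne (by decide : (0 : Fin 5) ≠ 3))
    (by simp only [S3, Q3]; ring)]
  rw [pair_eq (Q := Q3 (x 0) (x 4) (x 1) (x 2) (x 3)) (hx.ne (by decide : (0 : Fin 5) ≠ 4))
    (by simp only [S3, Q3]; ring)]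
  rw [pair_eq (Q := Q3 (x 1) (x 2) (x 0) (x 3) (x 4)) (hx.ne (by decide : (1 : Fin 5) ≠ 2))
    (by simp only [S3, Q3]; ring)]
  rw [pair_eq (Q := Q3 (x 1) (x 3) (x 0) (x 2) (x 4)) (hx.ne (by decide : (1 : Fin 5) ≠ 3))
    (by simp only [S3, Q3]; ring)]
  rw [pair_eq (Q := Q3 (x 1) (x 4) (x 0) (x 2) (x 3)) (hx.ne (by decide : (1 : Fin 5) ≠ 4))
    (by simp only [S3, Q3]; ring)]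
  rw [pair_eq (Q := Q3 (x 2) (x 3) (x 0) (x 1) (x 4)) (hx.ne (by decide : (2 : Fin 5) ≠ 3))
    (by simp only [S3, Q3]; ring)]
  rw [pair_eq (Q := Q3 (x 2) (x 4) (x 0) (x 1) (x 3)) (hx.ne (by decide : (2 : Fin 5) ≠ 4))
    (by simp only [S3, Q3]; ring)]
  rw [pair_eq (Q := Q3 (x 3) (x 4) (x 0) (x 1) (x 2)) (hx.ne (by decide : (3 : Fin 5) ≠ 4))
    (by simp only [S3, Q3]; ring)]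
  simp only [Q3, m3, m4, m6]
  ring

end Pool.Agent.P.MP_e74401_co
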