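import Pool.Agent.P.MP_e74401_co.MDefs

namespace Pool.Agent.P.MP_e74401_co

def S4 (a b c d e : ℝ) : ℝ :=
  3 * a ^ 3 * b ^ 2 * c * d + 3 * a ^ 3 * b ^ 2 * c * e + 3 * a ^ 3 * b ^ 2 * d * e + 3 * a ^ 3 *
  b * c ^ 2 * d + 3 * a ^ 3 * b * c ^ 2 * e + 3 * a ^ 3 * b * c * d ^ 2 + 3 * a ^ 3 * b * c * e ^
  2 + 3 * a ^ 3 * b * d ^ 2 * e + 3 * a ^ 3 * b * d * e ^ 2 + 3 * a ^ 3 * c ^ 2 * d * e + 3 * a ^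
  3 * c * d ^ 2 * e + 3 * a ^ 3 * c * d * e ^ 2 + 2 * a ^ 2 * b ^ 3 * c * d + 2 * a ^ 2 * b ^ 3 *
  c * e + 2 * a ^ 2 * b ^ 3 * d * e + 2 * a ^ 2 * b * c ^ 3 * d + 2 * a ^ 2 * b * c ^ 3 * e + 2 *
  a ^ 2 * b * c * d ^ 3 + 2 * a ^ 2 * b * c * e ^ 3 + 2 * a ^ 2 * b * d ^ 3 * e + 2 * a ^ 2 * b *
  d * e ^ 3 + 2 * a ^ 2 * c ^ 3 * d * e + 2 * a ^ 2 * c * d ^ 3 * e + 2 * a ^ 2 * c * d * e ^ 3 +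
  a * b ^ 3 * c ^ 2 * d + a * b ^ 3 * c ^ 2 * e + a * b ^ 3 * c * d ^ 2 + a * b ^ 3 * c * e ^ 2 +
  a * b ^ 3 * d ^ 2 * e + a * b ^ 3 * d * e ^ 2 + a * b ^ 2 * c ^ 3 * d + a * b ^ 2 * c ^ 3 * e +
  a * b ^ 2 * c * d ^ 3 + a * b ^ 2 * c * e ^ 3 + a * b ^ 2 * d ^ 3 * e + a * b ^ 2 * d * e ^ 3 +
  a * b * c ^ 3 * d ^ 2 + a * b * c ^ 3 * e ^ 2 + a * b * c ^ 2 * d ^ 3 + a * b * c ^ 2 * e ^ 3 +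
  a * b * d ^ 3 * e ^ 2 + a * b * d ^ 2 * e ^ 3 + a * c ^ 3 * d ^ 2 * e + a * c ^ 3 * d * e ^ 2 +
  a * c ^ 2 * d ^ 3 * e + a * c ^ 2 * d * e ^ 3 + a * c * d ^ 3 * e ^ 2 + a * c * d ^ 2 * e ^ 3

def Q4 (a b c d e : ℝ) : ℝ :=
  3 * a ^ 3 * b ^ 2 * c * d + 3 * a ^ 3 * b ^ 2 * c * e + 3 * a ^ 3 * b ^ 2 * d * e + 3 * a ^ 3 *
  b * c ^ 2 * d + 3 * a ^ 3 * b * c ^ 2 * e + 3 * a ^ 3 * b * c * d ^ 2 + 3 * a ^ 3 * b * c * e ^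
  2 + 3 * a ^ 3 * b * d ^ 2 * e + 3 * a ^ 3 * b * d * e ^ 2 + 3 * a ^ 3 * c ^ 2 * d * e + 3 * a ^
  3 * c * d ^ 2 * e + 3 * a ^ 3 * c * d * e ^ 2 + 3 * a ^ 2 * b ^ 3 * c * d + 3 * a ^ 2 * b ^ 3 *
  c * e + 3 * a ^ 2 * b ^ 3 * d * e + 2 * a ^ 2 * b ^ 2 * c ^ 2 * d + 2 * a ^ 2 * b ^ 2 * c ^ 2 *
  e + 2 * a ^ 2 * b ^ 2 * c * d ^ 2 + 2 * a ^ 2 * b ^ 2 * c * e ^ 2 + 2 * a ^ 2 * b ^ 2 * d ^ 2 *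
  e + 2 * a ^ 2 * b ^ 2 * d * e ^ 2 + 2 * a ^ 2 * b * c ^ 3 * d + 2 * a ^ 2 * b * c ^ 3 * e + 3 *
  a ^ 2 * b * c ^ 2 * d * e + 2 * a ^ 2 * b * c * d ^ 3 + 3 * a ^ 2 * b * c * d ^ 2 * e + 3 * a ^
  2 * b * c * d * e ^ 2 + 2 * a ^ 2 * b * c * e ^ 3 + 2 * a ^ 2 * b * d ^ 3 * e + 2 * a ^ 2 * b *
  d * e ^ 3 + 2 * a ^ 2 * c ^ 3 * d * e + 2 * a ^ 2 * c * d ^ 3 * e + 2 * a ^ 2 * c * d * e ^ 3 +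
  3 * a * b ^ 3 * c ^ 2 * d + 3 * a * b ^ 3 * c ^ 2 * e + 3 * a * b ^ 3 * c * d ^ 2 + 3 * a * b ^
  3 * c * e ^ 2 + 3 * a * b ^ 3 * d ^ 2 * e + 3 * a * b ^ 3 * d * e ^ 2 + 2 * a * b ^ 2 * c ^ 3 *
  d + 2 * a * b ^ 2 * c ^ 3 * e + 3 * a * b ^ 2 * c ^ 2 * d * e + 2 * a * b ^ 2 * c * d ^ 3 + 3 *
  a * b ^ 2 * c * d ^ 2 * e + 3 * a * b ^ 2 * c * d * e ^ 2 + 2 * a * b ^ 2 * c * e ^ 3 + 2 * a *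
  b ^ 2 * d ^ 3 * e + 2 * a * b ^ 2 * d * e ^ 3 + a * b * c ^ 3 * d ^ 2 + 2 * a * b * c ^ 3 * d *
  e + a * b * c ^ 3 * e ^ 2 + a * b * c ^ 2 * d ^ 3 + a * b * c ^ 2 * e ^ 3 + 2 * a * b * c * d ^
  3 * e + 2 * a * b * c * d * e ^ 3 + a * b * d ^ 3 * e ^ 2 + a * b * d ^ 2 * e ^ 3 + a * c ^ 3 *
  d ^ 2 * e + a * c ^ 3 * d * e ^ 2 + a * c ^ 2 * d ^ 3 * e + a * c ^ 2 * d * e ^ 3 + a * c * d ^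
  3 * e ^ 2 + a * c * d ^ 2 * e ^ 3 + 3 * b ^ 3 * c ^ 2 * d * e + 3 * b ^ 3 * c * d ^ 2 * e + 3 *
  b ^ 3 * c * d * e ^ 2 + 2 * b ^ 2 * c ^ 3 * d * e + 2 * b ^ 2 * c * d ^ 3 * e + 2 * b ^ 2 * c *
  d * e ^ 3 + b * c ^ 3 * d ^ 2 * e + b * c ^ 3 * d * e ^ 2 + b * c ^ 2 * d ^ 3 * e + b * c ^ 2 *
  d * e ^ 3 + b * c * d ^ 3 * e ^ 2 + b * c * d ^ 2 * e ^ 3

lemma LL4 : (List.ofFn nu4).permutations'.dedup =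
    [[3, 2, 1, 1, 0], [2, 3, 1, 1, 0], [2, 1, 3, 1, 0], [2, 1, 1, 3, 0], [2, 1, 1, 0, 3], [3, 1, 2,
    1, 0], [1, 3, 2, 1, 0], [1, 2, 3, 1, 0], [1, 2, 1, 3, 0], [1, 2, 1, 0, 3], [3, 1, 1, 2, 0], [1,
    3, 1, 2, 0], [1, 1, 3, 2, 0], [1, 1, 2, 3, 0], [1, 1, 2, 0, 3], [3, 1, 1, 0, 2], [1, 3, 1, 0,
    2], [1, 1, 3, 0, 2], [1, 1, 0, 3, 2], [1, 1, 0, 2, 3], [3, 2, 1, 0, 1], [2, 3, 1, 0, 1], [2, 1,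
    3, 0, 1], [2, 1, 0, 3, 1], [2, 1, 0, 1, 3], [3, 1, 2, 0, 1], [1, 3, 2, 0, 1], [1, 2, 3, 0, 1],
    [1, 2, 0, 3, 1], [1, 2, 0, 1, 3], [3, 1, 0, 2, 1], [1, 3, 0, 2, 1], [1, 0, 3, 2, 1], [1, 0, 2,
    3, 1], [1, 0, 2, 1, 3], [3, 1, 0, 1, 2], [1, 3, 0, 1, 2], [1, 0, 3, 1, 2], [1, 0, 1, 3, 2], [1,
    0, 1, 2, 3], [3, 2, 0, 1, 1], [2, 3, 0, 1, 1], [2, 0, 3, 1, 1], [2, 0, 1, 3, 1], [2, 0, 1, 1,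
    3], [3, 0, 2, 1, 1], [0, 3, 2, 1, 1], [0, 2, 3, 1, 1], [0, 2, 1, 3, 1], [0, 2, 1, 1, 3], [3, 0,
    1, 2, 1], [0, 3, 1, 2, 1], [0, 1, 3, 2, 1], [0, 1, 2, 3, 1], [0, 1, 2, 1, 3], [3, 0, 1, 1, 2],
    [0, 3, 1, 1, 2], [0, 1, 3, 1, 2], [0, 1, 1, 3, 2], [0, 1, 1, 2, 3]] := by
  decide +kernel

lemma em4 (x : Fin 5 → ℝ) :
    ∑ η ∈ orb nu4, E x η = m4 (x 0) (x 1) (x 2) (x 3) (x 4) := by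
  rw [sum_orb, LL4]
  simp only [List.map_cons, List.map_nil, List.sum_cons, List.sum_nil, E_vec, m4]
  ring

lemma es4_0 (x : Fin 5 → ℝ) :
    ∑ η ∈ orb nu4, (η 0 : ℝ) * E x η = S4 (x 0) (x 1) (x 2) (x 3) (x 4) := by
  rw [sum_orb, LL4]
  simp only [List.map_cons, List.map_nil, List.sum_cons, List.sum_nil, E_vec, vec0,
    Nat.cast_ofNat, Nat.cast_zero, Nat.cast_one, S4]
  ring

lemma es4_1 (x : Fin 5 → ℝ) :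
    ∑ η ∈ orb nu4, (η 1 : ℝ) * E x η = S4 (x 1) (x 0) (x 2) (x 3) (x 4) := by
  rw [sum_orb, LL4]
  simp only [List.map_cons, List.map_nil, List.sum_cons, List.sum_nil, E_vec, vec1,
    Nat.cast_ofNat, Nat.cast_zero, Nat.cast_one, S4]
  ring

lemma es4_2 (x : Fin 5 → ℝ) :
    ∑ η ∈ orb nu4, (η 2 : ℝ) * E x η = S4 (x 2) (x 0) (x 1) (x 3) (x 4) := by
  rw [sum_orb, LL4]
  simp only [List.map_cons, List.map_nil, List.sum_cons, List.sum_nil, E_vec, vec2,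
    Nat.cast_ofNat, Nat.cast_zero, Nat.cast_one, S4]
  ring

lemma es4_3 (x : Fin 5 → ℝ) :
    ∑ η ∈ orb nu4, (η 3 : ℝ) * E x η = S4 (x 3) (x 0) (x 1) (x 2) (x 4) := by
  rw [sum_orb, LL4]
  simp only [List.map_cons, List.map_nil, List.sum_cons, List.sum_nil, E_vec, vec3,
    Nat.cast_ofNat, Nat.cast_zero, Nat.cast_one, S4]
  ring

lemma es4_4 (x : Fin 5 → ℝ) :
    ∑ η ∈ orb nu4, (η 4 : ℝ) * E x η = S4 (x 4) (x 0) (x 1) (x 2) (x 3) := by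
  rw [sum_orb, LL4]
  simp only [List.map_cons, List.map_nil, List.sum_cons, List.sum_nil, E_vec, vec4,
    Nat.cast_ofNat, Nat.cast_zero, Nat.cast_one, S4]
  ring

lemma dop4 (α : ℝ) (x : Fin 5 → ℝ) (hx : Function.Injective x) :
    Dop α x (monomialSymm nu4) = (α / 2 * 8 + 21) * m4 (x 0) (x 1) (x 2) (x 3) (x 4) +
      12 * m5 (x 0) (x 1) (x 2) (x 3) (x 4) +
      6 * m6 (x 0) (x 1) (x 2) (x 3) (x 4) +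
      18 * m7 (x 0) (x 1) (x 2) (x 3) (x 4) := by
  have hr : (∑ i, (nu4 i : ℝ) * (nu4 i - 1)) = 8 := by
    simp [Fin.sum_univ_five, nu4]
    norm_num
  rw [Dop_monomialSymm, sum_pairs, hr, em4, es4_0, es4_1, es4_2, es4_3, es4_4]
  rw [pair_eq (Q := Q4 (x 0) (x 1) (x 2) (x 3) (x 4)) (hx.ne (by decide : (0 : Fin 5) ≠ 1))
    (by simp only [S4, Q4]; ring)]
  rw [pair_eq (Q := Q4 (x 0) (x 2) (x 1) (x 3) (x 4)) (hx.ne (by decide : (0 : Fin 5) ≠ 2))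
    (by simp only [S4, Q4]; ring)]
  rw [pair_eq (Q := Q4 (x 0) (x 3) (x 1) (x 2) (x 4)) (hx.ne (by decide : (0 : Fin 5) ≠ 3))
    (by simp only [S4, Q4]; ring)]
  rw [pair_eq (Q := Q4 (x 0) (x 4) (x 1) (x 2) (x 3)) (hx.ne (by decide : (0 : Fin 5) ≠ 4))
    (by simp only [S4, Q4]; ring)]
  rw [pair_eq (Q := Q4 (x 1) (x 2) (x 0) (x 3) (x 4)) (hx.ne (by decide : (1 : Fin 5) ≠ 2))
    (by simp only [S4, Q4]; ring)]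
  rw [pair_eq (Q := Q4 (x 1) (x 3) (x 0) (x 2) (x 4)) (hx.ne (by decide : (1 : Fin 5) ≠ 3))
    (by simp only [S4, Q4]; ring)]
  rw [pair_eq (Q := Q4 (x 1) (x 4) (x 0) (x 2) (x 3)) (hx.ne (by decide : (1 : Fin 5) ≠ 4))
    (by simp only [S4, Q4]; ring)]
  rw [pair_eq (Q := Q4 (x 2) (x 3) (x 0) (x 1) (x 4)) (hx.ne (by decide : (2 : Fin 5) ≠ 3))
    (by simp only [S4, Q4]; ring)]
  rw [pair_eq (Q := Q4 (x 2) (x 4) (x 0) (x 1) (x 3)) (hx.ne (by decide : (2 : Fin 5) ≠ 4))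
    (by simp only [S4, Q4]; ring)]
  rw [pair_eq (Q := Q4 (x 3) (x 4) (x 0) (x 1) (x 2)) (hx.ne (by decide : (3 : Fin 5) ≠ 4))
    (by simp only [S4, Q4]; ring)]
  simp only [Q4, m4, m5, m6, m7]
  ring

end Pool.Agent.P.MP_e74401_co
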