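import Pool.Agent.P.MP_e74401_co.MDefs

namespace Pool.Agent.P.MP_e74401_co

def S5 (a b c d e : ℝ) : ℝ :=
  3 * a ^ 3 * b * c * d * e + a * b ^ 3 * c * d * e + a * b * c ^ 3 * d * e + a * b * c * d ^ 3 *
  e + a * b * c * d * e ^ 3

def Q5 (a b c d e : ℝ) : ℝ :=
  3 * a ^ 3 * b * c * d * e + 2 * a ^ 2 * b ^ 2 * c * d * e + 3 * a * b ^ 3 * c * d * e + a * b *
  c ^ 3 * d * e + a * b * c * d ^ 3 * e + a * b * c * d * e ^ 3

lemma LL5 : (List.ofFn nu5).permutations'.dedup =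
    [[3, 1, 1, 1, 1], [1, 3, 1, 1, 1], [1, 1, 3, 1, 1], [1, 1, 1, 3, 1], [1, 1, 1, 1, 3]] := by
  decide +kernel

lemma em5 (x : Fin 5 → ℝ) :
    ∑ η ∈ orb nu5, E x η = m5 (x 0) (x 1) (x 2) (x 3) (x 4) := by
  rw [sum_orb, LL5]
  simp only [List.map_cons, List.map_nil, List.sum_cons, List.sum_nil, E_vec, m5]
  ring

lemma es5_0 (x : Fin 5 → ℝ) :
    ∑ η ∈ orb nu5, (η 0 : ℝ) * E x η = S5 (x 0) (x 1) (x 2) (x 3) (x 4) := by
  rw [sum_orb, LL5]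
  simp only [List.map_cons, List.map_nil, List.sum_cons, List.sum_nil, E_vec, vec0,
    Nat.cast_ofNat, Nat.cast_zero, Nat.cast_one, S5]
  ring

lemma es5_1 (x : Fin 5 → ℝ) :
    ∑ η ∈ orb nu5, (η 1 : ℝ) * E x η = S5 (x 1) (x 0) (x 2) (x 3) (x 4) := by
  rw [sum_orb, LL5]
  simp only [List.map_cons, List.map_nil, List.sum_cons, List.sum_nil, E_vec, vec1,
    Nat.cast_ofNat, Nat.cast_zero, Nat.cast_one, S5]
  ring

lemma es5_2 (x : Fin 5 → ℝ) :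
    ∑ η ∈ orb nu5, (η 2 : ℝ) * E x η = S5 (x 2) (x 0) (x 1) (x 3) (x 4) := by
  rw [sum_orb, LL5]
  simp only [List.map_cons, List.map_nil, List.sum_cons, List.sum_nil, E_vec, vec2,
    Nat.cast_ofNat, Nat.cast_zero, Nat.cast_one, S5]
  ring

lemma es5_3 (x : Fin 5 → ℝ) :
    ∑ η ∈ orb nu5, (η 3 : ℝ) * E x η = S5 (x 3) (x 0) (x 1) (x 2) (x 4) := by
  rw [sum_orb, LL5]
  simp only [List.map_cons, List.map_nil, List.sum_cons, List.sum_nil, E_vec, vec3,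
    Nat.cast_ofNat, Nat.cast_zero, Nat.cast_one, S5]
  ring

lemma es5_4 (x : Fin 5 → ℝ) :
    ∑ η ∈ orb nu5, (η 4 : ℝ) * E x η = S5 (x 4) (x 0) (x 1) (x 2) (x 3) := by
  rw [sum_orb, LL5]
  simp only [List.map_cons, List.map_nil, List.sum_cons, List.sum_nil, E_vec, vec4,
    Nat.cast_ofNat, Nat.cast_zero, Nat.cast_one, S5]
  ring

lemma dop5 (α : ℝ) (x : Fin 5 → ℝ) (hx : Function.Injective x) :
    Dop α x (monomialSymm nu5) = (α / 2 * 6 + 18) * m5 (x 0) (x 1) (x 2) (x 3) (x 4) +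
      2 * m7 (x 0) (x 1) (x 2) (x 3) (x 4) := by
  have hr : (∑ i, (nu5 i : ℝ) * (nu5 i - 1)) = 6 := by
    simp [Fin.sum_univ_five, nu5]
    norm_num
  rw [Dop_monomialSymm, sum_pairs, hr, em5, es5_0, es5_1, es5_2, es5_3, es5_4]
  rw [pair_eq (Q := Q5 (x 0) (x 1) (x 2) (x 3) (x 4)) (hx.ne (by decide : (0 : Fin 5) ≠ 1))
    (by simp only [S5, Q5]; ring)]
  rw [pair_eq (Q := Q5 (x 0) (x 2) (x 1) (x 3) (x 4)) (hx.ne (by decide : (0 : Fin 5) ≠ 2))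
    (by simp only [S5, Q5]; ring)]
  rw [pair_eq (Q := Q5 (x 0) (x 3) (x 1) (x 2) (x 4)) (hx.ne (by decide : (0 : Fin 5) ≠ 3))
    (by simp only [S5, Q5]; ring)]
  rw [pair_eq (Q := Q5 (x 0) (x 4) (x 1) (x 2) (x 3)) (hx.ne (by decide : (0 : Fin 5) ≠ 4))
    (by simp only [S5, Q5]; ring)]
  rw [pair_eq (Q := Q5 (x 1) (x 2) (x 0) (x 3) (x 4)) (hx.ne (by decide : (1 : Fin 5) ≠ 2))
    (by simp only [S5, Q5]; ring)]
  rw [pair_eq (Q := Q5 (x 1) (x 3) (x 0) (x 2) (x 4)) (hx.ne (by decide : (1 : Fin 5) ≠ 3))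
    (by simp only [S5, Q5]; ring)]
  rw [pair_eq (Q := Q5 (x 1) (x 4) (x 0) (x 2) (x 3)) (hx.ne (by decide : (1 : Fin 5) ≠ 4))
    (by simp only [S5, Q5]; ring)]
  rw [pair_eq (Q := Q5 (x 2) (x 3) (x 0) (x 1) (x 4)) (hx.ne (by decide : (2 : Fin 5) ≠ 3))
    (by simp only [S5, Q5]; ring)]
  rw [pair_eq (Q := Q5 (x 2) (x 4) (x 0) (x 1) (x 3)) (hx.ne (by decide : (2 : Fin 5) ≠ 4))
    (by simp only [S5, Q5]; ring)]
  rw [pair_eq (Q := Q5 (x 3) (x 4) (x 0) (x 1) (x 2)) (hx.ne (by decide : (3 : Fin 5) ≠ 4))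
    (by simp only [S5, Q5]; ring)]
  simp only [Q5, m5, m7]
  ring

end Pool.Agent.P.MP_e74401_co
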