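import Pool.Agent.P.MP_e74401_co.MDefs

namespace Pool.Agent.P.MP_e74401_co

def S6 (a b c d e : ℝ) : ℝ :=
  2 * a ^ 2 * b ^ 2 * c ^ 2 * d + 2 * a ^ 2 * b ^ 2 * c ^ 2 * e + 2 * a ^ 2 * b ^ 2 * c * d ^ 2 +
  2 * a ^ 2 * b ^ 2 * c * e ^ 2 + 2 * a ^ 2 * b ^ 2 * d ^ 2 * e + 2 * a ^ 2 * b ^ 2 * d * e ^ 2 +
  2 * a ^ 2 * b * c ^ 2 * d ^ 2 + 2 * a ^ 2 * b * c ^ 2 * e ^ 2 + 2 * a ^ 2 * b * d ^ 2 * e ^ 2 +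
  2 * a ^ 2 * c ^ 2 * d ^ 2 * e + 2 * a ^ 2 * c ^ 2 * d * e ^ 2 + 2 * a ^ 2 * c * d ^ 2 * e ^ 2 +
  a * b ^ 2 * c ^ 2 * d ^ 2 + a * b ^ 2 * c ^ 2 * e ^ 2 + a * b ^ 2 * d ^ 2 * e ^ 2 + a * c ^ 2 *
  d ^ 2 * e ^ 2

def Q6 (a b c d e : ℝ) : ℝ :=
  2 * a ^ 2 * b ^ 2 * c ^ 2 * d + 2 * a ^ 2 * b ^ 2 * c ^ 2 * e + 2 * a ^ 2 * b ^ 2 * c * d ^ 2 +
  2 * a ^ 2 * b ^ 2 * c * e ^ 2 + 2 * a ^ 2 * b ^ 2 * d ^ 2 * e + 2 * a ^ 2 * b ^ 2 * d * e ^ 2 +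
  2 * a ^ 2 * b * c ^ 2 * d ^ 2 + 2 * a ^ 2 * b * c ^ 2 * e ^ 2 + 2 * a ^ 2 * b * d ^ 2 * e ^ 2 +
  2 * a ^ 2 * c ^ 2 * d ^ 2 * e + 2 * a ^ 2 * c ^ 2 * d * e ^ 2 + 2 * a ^ 2 * c * d ^ 2 * e ^ 2 +
  2 * a * b ^ 2 * c ^ 2 * d ^ 2 + 2 * a * b ^ 2 * c ^ 2 * e ^ 2 + 2 * a * b ^ 2 * d ^ 2 * e ^ 2 +
  2 * a * b * c ^ 2 * d ^ 2 * e + 2 * a * b * c ^ 2 * d * e ^ 2 + 2 * a * b * c * d ^ 2 * e ^ 2 +
  a * c ^ 2 * d ^ 2 * e ^ 2 + 2 * b ^ 2 * c ^ 2 * d ^ 2 * e + 2 * b ^ 2 * c ^ 2 * d * e ^ 2 + 2 *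
  b ^ 2 * c * d ^ 2 * e ^ 2 + b * c ^ 2 * d ^ 2 * e ^ 2

lemma LL6 : (List.ofFn nu6).permutations'.dedup =
    [[2, 2, 2, 1, 0], [2, 2, 1, 2, 0], [2, 1, 2, 2, 0], [1, 2, 2, 2, 0], [2, 2, 1, 0, 2], [2, 1, 2,
    0, 2], [1, 2, 2, 0, 2], [2, 1, 0, 2, 2], [1, 2, 0, 2, 2], [1, 0, 2, 2, 2], [2, 2, 2, 0, 1], [2,
    2, 0, 2, 1], [2, 0, 2, 2, 1], [0, 2, 2, 2, 1], [2, 2, 0, 1, 2], [2, 0, 2, 1, 2], [0, 2, 2, 1,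
    2], [2, 0, 1, 2, 2], [0, 2, 1, 2, 2], [0, 1, 2, 2, 2]] := by
  decide +kernel

lemma em6 (x : Fin 5 → ℝ) :
    ∑ η ∈ orb nu6, E x η = m6 (x 0) (x 1) (x 2) (x 3) (x 4) := by
  rw [sum_orb, LL6]
  simp only [List.map_cons, List.map_nil, List.sum_cons, List.sum_nil, E_vec, m6]
  ring

lemma es6_0 (x : Fin 5 → ℝ) :
    ∑ η ∈ orb nu6, (η 0 : ℝ) * E x η = S6 (x 0) (x 1) (x 2) (x 3) (x 4) := by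
  rw [sum_orb, LL6]
  simp only [List.map_cons, List.map_nil, List.sum_cons, List.sum_nil, E_vec, vec0,
    Nat.cast_ofNat, Nat.cast_zero, Nat.cast_one, S6]
  ring

lemma es6_1 (x : Fin 5 → ℝ) :
    ∑ η ∈ orb nu6, (η 1 : ℝ) * E x η = S6 (x 1) (x 0) (x 2) (x 3) (x 4) := by
  rw [sum_orb, LL6]
  simp only [List.map_cons, List.map_nil, List.sum_cons, List.sum_nil, E_vec, vec1,
    Nat.cast_ofNat, Nat.cast_zero, Nat.cast_one, S6]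
  ring

lemma es6_2 (x : Fin 5 → ℝ) :
    ∑ η ∈ orb nu6, (η 2 : ℝ) * E x η = S6 (x 2) (x 0) (x 1) (x 3) (x 4) := by
  rw [sum_orb, LL6]
  simp only [List.map_cons, List.map_nil, List.sum_cons, List.sum_nil, E_vec, vec2,
    Nat.cast_ofNat, Nat.cast_zero, Nat.cast_one, S6]
  ring

lemma es6_3 (x : Fin 5 → ℝ) :
    ∑ η ∈ orb nu6, (η 3 : ℝ) * E x η = S6 (x 3) (x 0) (x 1) (x 2) (x 4) := by
  rw [sum_orb, LL6]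
  simp only [List.map_cons, List.map_nil, List.sum_cons, List.sum_nil, E_vec, vec3,
    Nat.cast_ofNat, Nat.cast_zero, Nat.cast_one, S6]
  ring

lemma es6_4 (x : Fin 5 → ℝ) :
    ∑ η ∈ orb nu6, (η 4 : ℝ) * E x η = S6 (x 4) (x 0) (x 1) (x 2) (x 3) := by
  rw [sum_orb, LL6]
  simp only [List.map_cons, List.map_nil, List.sum_cons, List.sum_nil, E_vec, vec4,
    Nat.cast_ofNat, Nat.cast_zero, Nat.cast_one, S6]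
  ring

lemma dop6 (α : ℝ) (x : Fin 5 → ℝ) (hx : Function.Injective x) :
    Dop α x (monomialSymm nu6) = (α / 2 * 6 + 19) * m6 (x 0) (x 1) (x 2) (x 3) (x 4) +
      6 * m7 (x 0) (x 1) (x 2) (x 3) (x 4) := by
  have hr : (∑ i, (nu6 i : ℝ) * (nu6 i - 1)) = 6 := by
    simp [Fin.sum_univ_five, nu6]
    norm_num
  rw [Dop_monomialSymm, sum_pairs, hr, em6, es6_0, es6_1, es6_2, es6_3, es6_4]
  rw [pair_eq (Q := Q6 (x 0) (x 1) (x 2) (x 3) (x 4)) (hx.ne (by decide : (0 : Fin 5) ≠ 1))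
    (by simp only [S6, Q6]; ring)]
  rw [pair_eq (Q := Q6 (x 0) (x 2) (x 1) (x 3) (x 4)) (hx.ne (by decide : (0 : Fin 5) ≠ 2))
    (by simp only [S6, Q6]; ring)]
  rw [pair_eq (Q := Q6 (x 0) (x 3) (x 1) (x 2) (x 4)) (hx.ne (by decide : (0 : Fin 5) ≠ 3))
    (by simp only [S6, Q6]; ring)]
  rw [pair_eq (Q := Q6 (x 0) (x 4) (x 1) (x 2) (x 3)) (hx.ne (by decide : (0 : Fin 5) ≠ 4))
    (by simp only [S6, Q6]; ring)]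
  rw [pair_eq (Q := Q6 (x 1) (x 2) (x 0) (x 3) (x 4)) (hx.ne (by decide : (1 : Fin 5) ≠ 2))
    (by simp only [S6, Q6]; ring)]
  rw [pair_eq (Q := Q6 (x 1) (x 3) (x 0) (x 2) (x 4)) (hx.ne (by decide : (1 : Fin 5) ≠ 3))
    (by simp only [S6, Q6]; ring)]
  rw [pair_eq (Q := Q6 (x 1) (x 4) (x 0) (x 2) (x 3)) (hx.ne (by decide : (1 : Fin 5) ≠ 4))
    (by simp only [S6, Q6]; ring)]
  rw [pair_eq (Q := Q6 (x 2) (x 3) (x 0) (x 1) (x 4)) (hx.ne (by decide : (2 : Fin 5) ≠ 3))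
    (by simp only [S6, Q6]; ring)]
  rw [pair_eq (Q := Q6 (x 2) (x 4) (x 0) (x 1) (x 3)) (hx.ne (by decide : (2 : Fin 5) ≠ 4))
    (by simp only [S6, Q6]; ring)]
  rw [pair_eq (Q := Q6 (x 3) (x 4) (x 0) (x 1) (x 2)) (hx.ne (by decide : (3 : Fin 5) ≠ 4))
    (by simp only [S6, Q6]; ring)]
  simp only [Q6, m6, m7]
  ring

end Pool.Agent.P.MP_e74401_co
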