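import Pool.Agent.P.MP_e74401_co.MDefs

namespace Pool.Agent.P.MP_e74401_co

def S7 (a b c d e : ℝ) : ℝ :=
  2 * a ^ 2 * b ^ 2 * c * d * e + 2 * a ^ 2 * b * c ^ 2 * d * e + 2 * a ^ 2 * b * c * d ^ 2 * e +
  2 * a ^ 2 * b * c * d * e ^ 2 + a * b ^ 2 * c ^ 2 * d * e + a * b ^ 2 * c * d ^ 2 * e + a * b ^
  2 * c * d * e ^ 2 + a * b * c ^ 2 * d ^ 2 * e + a * b * c ^ 2 * d * e ^ 2 + a * b * c * d ^ 2 *
  e ^ 2

def Q7 (a b c d e : ℝ) : ℝ :=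
  2 * a ^ 2 * b ^ 2 * c * d * e + 2 * a ^ 2 * b * c ^ 2 * d * e + 2 * a ^ 2 * b * c * d ^ 2 * e +
  2 * a ^ 2 * b * c * d * e ^ 2 + 2 * a * b ^ 2 * c ^ 2 * d * e + 2 * a * b ^ 2 * c * d ^ 2 * e +
  2 * a * b ^ 2 * c * d * e ^ 2 + a * b * c ^ 2 * d ^ 2 * e + a * b * c ^ 2 * d * e ^ 2 + a * b *
  c * d ^ 2 * e ^ 2

lemma LL7 : (List.ofFn nu7).permutations'.dedup =
    [[2, 2, 1, 1, 1], [2, 1, 2, 1, 1], [1, 2, 2, 1, 1], [2, 1, 1, 2, 1], [1, 2, 1, 2, 1], [1, 1, 2,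
    2, 1], [2, 1, 1, 1, 2], [1, 2, 1, 1, 2], [1, 1, 2, 1, 2], [1, 1, 1, 2, 2]] := by
  decide +kernel

lemma em7 (x : Fin 5 → ℝ) :
    ∑ η ∈ orb nu7, E x η = m7 (x 0) (x 1) (x 2) (x 3) (x 4) := by
  rw [sum_orb, LL7]
  simp only [List.map_cons, List.map_nil, List.sum_cons, List.sum_nil, E_vec, m7]
  ring

lemma es7_0 (x : Fin 5 → ℝ) :
    ∑ η ∈ orb nu7, (η 0 : ℝ) * E x η = S7 (x 0) (x 1) (x 2) (x 3) (x 4) := by
  rw [sum_orb, LL7]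
  simp only [List.map_cons, List.map_nil, List.sum_cons, List.sum_nil, E_vec, vec0,
    Nat.cast_ofNat, Nat.cast_zero, Nat.cast_one, S7]
  ring

lemma es7_1 (x : Fin 5 → ℝ) :
    ∑ η ∈ orb nu7, (η 1 : ℝ) * E x η = S7 (x 1) (x 0) (x 2) (x 3) (x 4) := by
  rw [sum_orb, LL7]
  simp only [List.map_cons, List.map_nil, List.sum_cons, List.sum_nil, E_vec, vec1,
    Nat.cast_ofNat, Nat.cast_zero, Nat.cast_one, S7]
  ring

lemma es7_2 (x : Fin 5 → ℝ) :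
    ∑ η ∈ orb nu7, (η 2 : ℝ) * E x η = S7 (x 2) (x 0) (x 1) (x 3) (x 4) := by
  rw [sum_orb, LL7]
  simp only [List.map_cons, List.map_nil, List.sum_cons, List.sum_nil, E_vec, vec2,
    Nat.cast_ofNat, Nat.cast_zero, Nat.cast_one, S7]
  ring

lemma es7_3 (x : Fin 5 → ℝ) :
    ∑ η ∈ orb nu7, (η 3 : ℝ) * E x η = S7 (x 3) (x 0) (x 1) (x 2) (x 4) := by
  rw [sum_orb, LL7]
  simp only [List.map_cons, List.map_nil, List.sum_cons, List.sum_nil, E_vec, vec3,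
    Nat.cast_ofNat, Nat.cast_zero, Nat.cast_one, S7]
  ring

lemma es7_4 (x : Fin 5 → ℝ) :
    ∑ η ∈ orb nu7, (η 4 : ℝ) * E x η = S7 (x 4) (x 0) (x 1) (x 2) (x 3) := by
  rw [sum_orb, LL7]
  simp only [List.map_cons, List.map_nil, List.sum_cons, List.sum_nil, E_vec, vec4,
    Nat.cast_ofNat, Nat.cast_zero, Nat.cast_one, S7]
  ring

lemma dop7 (α : ℝ) (x : Fin 5 → ℝ) (hx : Function.Injective x) :
    Dop α x (monomialSymm nu7) = (α / 2 * 4 + 17) * m7 (x 0) (x 1) (x 2) (x 3) (x 4) := by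
  have hr : (∑ i, (nu7 i : ℝ) * (nu7 i - 1)) = 4 := by
    simp [Fin.sum_univ_five, nu7]
    norm_num
  rw [Dop_monomialSymm, sum_pairs, hr, em7, es7_0, es7_1, es7_2, es7_3, es7_4]
  rw [pair_eq (Q := Q7 (x 0) (x 1) (x 2) (x 3) (x 4)) (hx.ne (by decide : (0 : Fin 5) ≠ 1))
    (by simp only [S7, Q7]; ring)]
  rw [pair_eq (Q := Q7 (x 0) (x 2) (x 1) (x 3) (x 4)) (hx.ne (by decide : (0 : Fin 5) ≠ 2))
    (by simp only [S7, Q7]; ring)]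
  rw [pair_eq (Q := Q7 (x 0) (x 3) (x 1) (x 2) (x 4)) (hx.ne (by decide : (0 : Fin 5) ≠ 3))
    (by simp only [S7, Q7]; ring)]
  rw [pair_eq (Q := Q7 (x 0) (x 4) (x 1) (x 2) (x 3)) (hx.ne (by decide : (0 : Fin 5) ≠ 4))
    (by simp only [S7, Q7]; ring)]
  rw [pair_eq (Q := Q7 (x 1) (x 2) (x 0) (x 3) (x 4)) (hx.ne (by decide : (1 : Fin 5) ≠ 2))
    (by simp only [S7, Q7]; ring)]
  rw [pair_eq (Q := Q7 (x 1) (x 3) (x 0) (x 2) (x 4)) (hx.ne (by decide : (1 : Fin 5) ≠ 3))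
    (by simp only [S7, Q7]; ring)]
  rw [pair_eq (Q := Q7 (x 1) (x 4) (x 0) (x 2) (x 3)) (hx.ne (by decide : (1 : Fin 5) ≠ 4))
    (by simp only [S7, Q7]; ring)]
  rw [pair_eq (Q := Q7 (x 2) (x 3) (x 0) (x 1) (x 4)) (hx.ne (by decide : (2 : Fin 5) ≠ 3))
    (by simp only [S7, Q7]; ring)]
  rw [pair_eq (Q := Q7 (x 2) (x 4) (x 0) (x 1) (x 3)) (hx.ne (by decide : (2 : Fin 5) ≠ 4))
    (by simp only [S7, Q7]; ring)]
  rw [pair_eq (Q := Q7 (x 3) (x 4) (x 0) (x 1) (x 2)) (hx.ne (by decide : (3 : Fin 5) ≠ 4))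
    (by simp only [S7, Q7]; ring)]
  simp only [Q7, m7]
  ring

end Pool.Agent.P.MP_e74401_co
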