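import Pool.Agent.P.MP_e74401_co.J0
import Pool.Agent.P.MP_e74401_co.J1
import Pool.Agent.P.MP_e74401_co.J2
import Pool.Agent.P.MP_e74401_co.J3
import Pool.Agent.P.MP_e74401_co.J4
import Pool.Agent.P.MP_e74401_co.J5
import Pool.Agent.P.MP_e74401_co.J6
import Pool.Agent.P.MP_e74401_co.J7

open MvPolynomial

namespace Pool.Agent.P.MP_e74401_co

lemma indep (k0 k1 k2 k3 k4 k5 k6 k7 : ℝ)
    (H0 : ∀ x : Fin 5 → ℝ, Function.Injective x →
      k0 * m0 (x 0) (x 1) (x 2) (x 3) (x 4) + k1 * m1 (x 0) (x 1) (x 2) (x 3) (x 4) +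
      k2 * m2 (x 0) (x 1) (x 2) (x 3) (x 4) + k3 * m3 (x 0) (x 1) (x 2) (x 3) (x 4) +
      k4 * m4 (x 0) (x 1) (x 2) (x 3) (x 4) + k5 * m5 (x 0) (x 1) (x 2) (x 3) (x 4) +
      k6 * m6 (x 0) (x 1) (x 2) (x 3) (x 4) + k7 * m7 (x 0) (x 1) (x 2) (x 3) (x 4) = 0) :
    k0 = 0 ∧ k1 = 0 ∧ k2 = 0 ∧ k3 = 0 ∧ k4 = 0 ∧ k5 = 0 ∧ k6 = 0 ∧ k7 = 0 := by
  have H : ∀ a b c d e : ℝ, a ≠ b → a ≠ c → a ≠ d → a ≠ e → b ≠ c → b ≠ d → b ≠ e → c ≠ d →
      c ≠ e → d ≠ e →
      k0 * m0 a b c d e + k1 * m1 a b c d e + k2 * m2 a b c d e + k3 * m3 a b c d e +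
      k4 * m4 a b c d e + k5 * m5 a b c d e + k6 * m6 a b c d e + k7 * m7 a b c d e = 0 := by
    intro a b c d e h1 h2 h3 h4 h5 h6 h7 h8 h9 h10
    apply H0 ![a, b, c, d, e]
    apply List.nodup_ofFn.mp
    simp [*]
  have h0 : (17010) * k0 + (-1830) * k1 + (5649) * k2 + (8427) * k3 + (-504) * k4 + (-744) * k5 + (1410) * k6 + (-600) * k7 = 0 := by
    have := H (-1) (1) (2) (3) (4) (by norm_num) (by norm_num) (by norm_num)
      (by norm_num) (by norm_num) (by norm_num) (by norm_num) (by norm_num) (by norm_num)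
      (by norm_num)
    simp only [m0, m1, m2, m3, m4, m5, m6, m7] at this
    linear_combination this
  have h1 : (-7740) * k0 + (4032) * k1 + (-10530) * k2 + (6840) * k3 + (1440) * k4 + (0) * k5 + (-1296) * k6 + (0) * k7 = 0 := by
    have := H (-3) (-2) (0) (3) (4) (by norm_num) (by norm_num) (by norm_num)
      (by norm_num) (by norm_num) (by norm_num) (by norm_num) (by norm_num) (by norm_num)
      (by norm_num)
    simp only [m0, m1, m2, m3, m4, m5, m6, m7] at this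
    linear_combination this
  have h2 : (172) * k0 + (1056) * k1 + (-4206) * k2 + (1976) * k3 + (384) * k4 + (0) * k5 + (-336) * k6 + (0) * k7 = 0 := by
    have := H (-3) (-1) (0) (2) (4) (by norm_num) (by norm_num) (by norm_num)
      (by norm_num) (by norm_num) (by norm_num) (by norm_num) (by norm_num) (by norm_num)
      (by norm_num)
    simp only [m0, m1, m2, m3, m4, m5, m6, m7] at this
    linear_combination this
  have h3 : (1260) * k0 + (-576) * k1 + (-150) * k2 + (840) * k3 + (-480) * k4 + (0) * k5 + (48) * k6 + (0) * k7 = 0 := by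
    have := H (-1) (0) (1) (2) (4) (by norm_num) (by norm_num) (by norm_num)
      (by norm_num) (by norm_num) (by norm_num) (by norm_num) (by norm_num) (by norm_num)
      (by norm_num)
    simp only [m0, m1, m2, m3, m4, m5, m6, m7] at this
    linear_combination this
  have h4 : (5814) * k0 + (-294) * k1 + (-5949) * k2 + (2757) * k3 + (-1968) * k4 + (744) * k5 + (522) * k6 + (-264) * k7 = 0 := by
    have := H (-3) (-1) (1) (2) (4) (by norm_num) (by norm_num) (by norm_num)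
      (by norm_num) (by norm_num) (by norm_num) (by norm_num) (by norm_num) (by norm_num)
      (by norm_num)
    simp only [m0, m1, m2, m3, m4, m5, m6, m7] at this
    linear_combination this
  have h5 : (-2106) * k0 + (2268) * k1 + (-12393) * k2 + (5967) * k3 + (1512) * k4 + (0) * k5 + (-972) * k6 + (0) * k7 = 0 := by
    have := H (-3) (-1) (0) (3) (4) (by norm_num) (by norm_num) (by norm_num)
      (by norm_num) (by norm_num) (by norm_num) (by norm_num) (by norm_num) (by norm_num)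
      (by norm_num)
    simp only [m0, m1, m2, m3, m4, m5, m6, m7] at this
    linear_combination this
  have h6 : (560) * k0 + (-312) * k1 + (960) * k2 + (-560) * k3 + (-120) * k4 + (0) * k5 + (96) * k6 + (0) * k7 = 0 := by
    have := H (-3) (-2) (0) (1) (2) (by norm_num) (by norm_num) (by norm_num)
      (by norm_num) (by norm_num) (by norm_num) (by norm_num) (by norm_num) (by norm_num)
      (by norm_num)
    simp only [m0, m1, m2, m3, m4, m5, m6, m7] at this
    linear_combination this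
  have h7 : (238) * k0 + (-114) * k1 + (39) * k2 + (-91) * k3 + (24) * k4 + (0) * k5 + (6) * k6 + (0) * k7 = 0 := by
    have := H (-3) (-1) (0) (1) (2) (by norm_num) (by norm_num) (by norm_num)
      (by norm_num) (by norm_num) (by norm_num) (by norm_num) (by norm_num) (by norm_num)
      (by norm_num)
    simp only [m0, m1, m2, m3, m4, m5, m6, m7] at this
    linear_combination this
  refine ⟨?_, ?_, ?_, ?_, ?_, ?_, ?_, ?_⟩
  · linear_combination (-43 / 5400) * h1 +
      (1 / 144) * h2 +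
      (71 / 25200) * h3 +
      (-3 / 275) * h5 +
      (-13963 / 69300) * h6 +
      (18 / 175) * h7
  · linear_combination (-347 / 21600) * h1 +
      (1 / 72) * h2 +
      (257 / 50400) * h3 +
      (-323 / 14850) * h5 +
      (-27953 / 69300) * h6 +
      (69 / 350) * h7
  · linear_combination (-23 / 1350) * h1 +
      (1 / 72) * h2 +
      (11 / 1800) * h3 +
      (-58 / 2475) * h5 +
      (-15091 / 34650) * h6 +
      (116 / 525) * h7
  · linear_combination (-19 / 540) * h1 +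
      (1 / 36) * h2 +
      (4 / 315) * h3 +
      (-13 / 275) * h5 +
      (-3086 / 3465) * h6 +
      (78 / 175) * h7
  · linear_combination (-1529 / 21600) * h1 +
      (1 / 18) * h2 +
      (1199 / 50400) * h3 +
      (-281 / 2970) * h5 +
      (-247717 / 138600) * h6 +
      (9 / 10) * h7
  · linear_combination (-11 / 26784) * h0 +
      (-398203 / 1339200) * h1 +
      (1061 / 4464) * h2 +
      (975419 / 9374400) * h3 +
      (25 / 26784) * h4 +
      (-494239 / 1227600) * h5 +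
      (-129721633 / 17186400) * h6 +
      (141779 / 37200) * h7
  · linear_combination (-2789 / 21600) * h1 +
      (7 / 72) * h2 +
      (2159 / 50400) * h3 +
      (-1238 / 7425) * h5 +
      (-31673 / 9900) * h6 +
      (817 / 525) * h7
  · linear_combination (-1 / 864) * h0 +
      (-407 / 576) * h1 +
      (9 / 16) * h2 +
      (15233 / 60480) * h3 +
      (-1 / 864) * h4 +
      (-37249 / 39600) * h5 +
      (-655993 / 36960) * h6 +
      (74173 / 8400) * h7

/-- A general combination of the eight monomial symmetric polynomials below `(4,2,1,0,0)`. -/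
noncomputable def Pc (c0 c1 c2 c3 c4 c5 c6 c7 : ℝ) : MvPolynomial (Fin 5) ℝ :=
  c0 • monomialSymm nu0 + c1 • monomialSymm nu1 + c2 • monomialSymm nu2 + c3 • monomialSymm nu3 +
    c4 • monomialSymm nu4 + c5 • monomialSymm nu5 + c6 • monomialSymm nu6 + c7 • monomialSymm nu7

lemma eigen_iff (c0 c1 c2 c3 c4 c5 c6 c7 e : ℝ) :
    (∀ x : Fin 5 → ℝ, Function.Injective x →
      Dop 20 x (Pc c0 c1 c2 c3 c4 c5 c6 c7) = e * eval x (Pc c0 c1 c2 c3 c4 c5 c6 c7)) ↔
    ((164 - e) * c0 = 0 ∧ (142 - e) * c1 + 6 * c0 = 0 ∧ (143 - e) * c2 + 2 * c0 = 0 ∧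
      (122 - e) * c3 + 6 * c0 + 2 * c2 = 0 ∧
      (101 - e) * c4 + 8 * c0 + 3 * c1 + 6 * c2 + 2 * c3 = 0 ∧
      (78 - e) * c5 + 16 * c1 + 12 * c4 = 0 ∧ (79 - e) * c6 + 12 * c0 + 9 * c3 + 6 * c4 = 0 ∧
      (57 - e) * c7 + 4 * c1 + 18 * c4 + 2 * c5 + 6 * c6 = 0) := by
  have key : ∀ x : Fin 5 → ℝ, Function.Injective x →
      Dop 20 x (Pc c0 c1 c2 c3 c4 c5 c6 c7) - e * eval x (Pc c0 c1 c2 c3 c4 c5 c6 c7) =
      ((164 - e) * c0) * m0 (x 0) (x 1) (x 2) (x 3) (x 4) +
      ((142 - e) * c1 + 6 * c0) * m1 (x 0) (x 1) (x 2) (x 3) (x 4) +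
      ((143 - e) * c2 + 2 * c0) * m2 (x 0) (x 1) (x 2) (x 3) (x 4) +
      ((122 - e) * c3 + 6 * c0 + 2 * c2) * m3 (x 0) (x 1) (x 2) (x 3) (x 4) +
      ((101 - e) * c4 + 8 * c0 + 3 * c1 + 6 * c2 + 2 * c3) * m4 (x 0) (x 1) (x 2) (x 3) (x 4) +
      ((78 - e) * c5 + 16 * c1 + 12 * c4) * m5 (x 0) (x 1) (x 2) (x 3) (x 4) +
      ((79 - e) * c6 + 12 * c0 + 9 * c3 + 6 * c4) * m6 (x 0) (x 1) (x 2) (x 3) (x 4) +
      ((57 - e) * c7 + 4 * c1 + 18 * c4 + 2 * c5 + 6 * c6) * m7 (x 0) (x 1) (x 2) (x 3) (x 4) := by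
    intro x hx
    simp only [Pc, Dop_add, Dop_smul, map_add, smul_eval, eval_monomialSymm]
    rw [dop0 _ x hx, dop1 _ x hx, dop2 _ x hx, dop3 _ x hx, dop4 _ x hx, dop5 _ x hx,
      dop6 _ x hx, dop7 _ x hx, em0, em1, em2, em3, em4, em5, em6, em7]
    ring
  constructor
  · intro h
    apply indep
    intro x hx
    rw [← key x hx, h x hx, sub_self]
  · rintro ⟨h0, h1, h2, h3, h4, h5, h6, h7⟩ x hx
    rw [← sub_eq_zero, key x hx, h0, h1, h2, h3, h4, h5, h6, h7]
    simp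

lemma classify_aux : ∀ a ∈ List.range 5, ∀ b ∈ List.range (a + 1), ∀ c ∈ List.range (b + 1),
    ∀ d ∈ List.range (c + 1), ∀ e ∈ List.range (d + 1), a + b ≤ 6 → a + b + c + d + e = 7 →
    vec [a, b, c, d, e] ∈ [nu0, nu1, nu2, nu3, nu4, nu5, nu6, nu7] := by decide +kernel

lemma classify {mu : Fin 5 → ℕ} (h : Antitone mu) (h0 : mu 0 ≤ 4) (h1 : mu 0 + mu 1 ≤ 6)
    (h7 : mu 0 + mu 1 + mu 2 + mu 3 + mu 4 = 7) :
    mu ∈ [nu0, nu1, nu2, nu3, nu4, nu5, nu6, nu7] := by
  have h01 : mu 1 ≤ mu 0 := h (by decide)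
  have h12 : mu 2 ≤ mu 1 := h (by decide)
  have h23 : mu 3 ≤ mu 2 := h (by decide)
  have h34 : mu 4 ≤ mu 3 := h (by decide)
  have := classify_aux (mu 0) (List.mem_range.mpr (by omega)) (mu 1)
    (List.mem_range.mpr (by omega)) (mu 2) (List.mem_range.mpr (by omega)) (mu 3)
    (List.mem_range.mpr (by omega)) (mu 4) (List.mem_range.mpr (by omega)) h1 h7
  rwa [← ofFn_five, vec_ofFn] at this

instance (lam mu : Fin 5 → ℕ) : Decidable (Majorizes lam mu) :=
  decidable_of_iff _ (majorizes_iff lam mu).symm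

/-- The lower span. -/
noncomputable abbrev low (lam : Fin 5 → ℕ) : Submodule ℝ (MvPolynomial (Fin 5) ℝ) := Submodule.span ℝ
  {g | ∃ mu : Fin 5 → ℕ, Antitone mu ∧ Majorizes lam mu ∧ mu ≠ lam ∧ g = monomialSymm mu}

lemma mem_low {lam mu : Fin 5 → ℕ} (h1 : Antitone mu) (h2 : Majorizes lam mu) (h3 : mu ≠ lam)
    (c : ℝ) : c • monomialSymm mu ∈ low lam :=
  Submodule.smul_mem _ _ (Submodule.subset_span ⟨mu, h1, h2, h3, rfl⟩)

lemma low0_iff (g : MvPolynomial (Fin 5) ℝ) :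
    g ∈ low nu0 ↔ ∃ c1 c2 c3 c4 c5 c6 c7 : ℝ, g = Pc 0 c1 c2 c3 c4 c5 c6 c7 := by
  constructor
  · intro h
    induction h using Submodule.span_induction with
    | mem x hx =>
      obtain ⟨mu, h1, h2, h3, hx'⟩ := hx
      rw [hx']
      have h2' := (majorizes_iff _ _).mp h2
      have := classify h1 h2'.1.1 h2'.1.2.1 (h2'.2.symm.trans (by decide))
      simp only [List.mem_cons, List.not_mem_nil, or_false] at this
      rcases this with rfl | rfl | rfl | rfl | rfl | rfl | rfl | rfl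
      · exact absurd rfl h3
      · exact ⟨1, 0, 0, 0, 0, 0, 0, by simp [Pc]⟩
      · exact ⟨0, 1, 0, 0, 0, 0, 0, by simp [Pc]⟩
      · exact ⟨0, 0, 1, 0, 0, 0, 0, by simp [Pc]⟩
      · exact ⟨0, 0, 0, 1, 0, 0, 0, by simp [Pc]⟩
      · exact ⟨0, 0, 0, 0, 1, 0, 0, by simp [Pc]⟩
      · exact ⟨0, 0, 0, 0, 0, 1, 0, by simp [Pc]⟩
      · exact ⟨0, 0, 0, 0, 0, 0, 1, by simp [Pc]⟩
    | zero => exact ⟨0, 0, 0, 0, 0, 0, 0, by simp [Pc]⟩
    | add x y _ _ hx hy =>
      obtain ⟨a1, a2, a3, a4, a5, a6, a7, rfl⟩ := hx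
      obtain ⟨b1, b2, b3, b4, b5, b6, b7, rfl⟩ := hy
      refine ⟨a1 + b1, a2 + b2, a3 + b3, a4 + b4, a5 + b5, a6 + b6, a7 + b7, ?_⟩
      simp only [Pc]
      module
    | smul a x _ hx =>
      obtain ⟨a1, a2, a3, a4, a5, a6, a7, rfl⟩ := hx
      refine ⟨a * a1, a * a2, a * a3, a * a4, a * a5, a * a6, a * a7, ?_⟩
      simp only [Pc]
      module
  · rintro ⟨c1, c2, c3, c4, c5, c6, c7, rfl⟩
    rw [Pc, zero_smul, zero_add]
    refine add_mem (add_mem (add_mem (add_mem (add_mem (add_mem ?_ ?_) ?_) ?_) ?_) ?_) ?_ <;>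
      exact mem_low (by decide) (by decide) (by decide) _

lemma low2_iff (g : MvPolynomial (Fin 5) ℝ) :
    g ∈ low nu2 ↔ ∃ c3 c4 c5 c6 c7 : ℝ, g = Pc 0 0 0 c3 c4 c5 c6 c7 := by
  constructor
  · intro h
    induction h using Submodule.span_induction with
    | mem x hx =>
      obtain ⟨mu, h1, h2, h3, hx'⟩ := hx
      rw [hx']
      have h2' := (majorizes_iff _ _).mp h2
      have := classify h1 (h2'.1.1.trans (by decide)) h2'.1.2.1
        (h2'.2.symm.trans (by decide))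
      simp only [List.mem_cons, List.not_mem_nil, or_false] at this
      rcases this with rfl | rfl | rfl | rfl | rfl | rfl | rfl | rfl
      · exact absurd h2 (by decide)
      · exact absurd h2 (by decide)
      · exact absurd rfl h3
      · exact ⟨1, 0, 0, 0, 0, by simp [Pc]⟩
      · exact ⟨0, 1, 0, 0, 0, by simp [Pc]⟩
      · exact ⟨0, 0, 1, 0, 0, by simp [Pc]⟩
      · exact ⟨0, 0, 0, 1, 0, by simp [Pc]⟩
      · exact ⟨0, 0, 0, 0, 1, by simp [Pc]⟩
    | zero => exact ⟨0, 0, 0, 0, 0, by simp [Pc]⟩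
    | add x y _ _ hx hy =>
      obtain ⟨a3, a4, a5, a6, a7, rfl⟩ := hx
      obtain ⟨b3, b4, b5, b6, b7, rfl⟩ := hy
      refine ⟨a3 + b3, a4 + b4, a5 + b5, a6 + b6, a7 + b7, ?_⟩
      simp only [Pc]
      module
    | smul a x _ hx =>
      obtain ⟨a3, a4, a5, a6, a7, rfl⟩ := hx
      refine ⟨a * a3, a * a4, a * a5, a * a6, a * a7, ?_⟩
      simp only [Pc]
      module
  · rintro ⟨c3, c4, c5, c6, c7, rfl⟩
    rw [Pc, zero_smul, zero_smul, zero_smul, zero_add, zero_add, zero_add]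
    refine add_mem (add_mem (add_mem (add_mem ?_ ?_) ?_) ?_) ?_ <;>
      exact mem_low (by decide) (by decide) (by decide) _

/-- The Jack polynomial of `(4,2,1,0,0)` at `α = 20`. -/
noncomputable def jackA : MvPolynomial (Fin 5) ℝ :=
  Pc 1 (3 / 11) (2 / 21) (65 / 441) (46979 / 305613) (7354 / 101871) (17077 / 101871)
    (4768 / 101871)

/-- The Jack polynomial of `(3,3,1,0,0)` at `α = 20`. -/
noncomputable def jackB : MvPolynomial (Fin 5) ℝ :=
  Pc 0 0 1 (2 / 21) (65 / 441) (4 / 147) (4 / 147) (211 / 6321)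

lemma isJack_iff (α : ℝ) (lam : Fin 5 → ℕ) (f : MvPolynomial (Fin 5) ℝ) :
    IsJack α lam f ↔ f - monomialSymm lam ∈ low lam ∧
      ∃ e : ℝ, ∀ x : Fin 5 → ℝ, Function.Injective x → Dop α x f = e * eval x f := Iff.rfl

theorem isJackA (f : MvPolynomial (Fin 5) ℝ) : IsJack 20 nu0 f ↔ f = jackA := by
  rw [isJack_iff, low0_iff]
  constructor
  · rintro ⟨⟨c1, c2, c3, c4, c5, c6, c7, hf⟩, e, he⟩
    have hf' : f = Pc 1 c1 c2 c3 c4 c5 c6 c7 := by
      rw [sub_eq_iff_eq_add] at hf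
      rw [hf]
      simp only [Pc]
      module
    rw [hf', eigen_iff] at he
    obtain ⟨h0, h1, h2, h3, h4, h5, h6, h7⟩ := he
    have he : e = 164 := by linarith
    subst he
    have e1 : c1 = 3 / 11 := by linarith
    have e2 : c2 = 2 / 21 := by linarith
    have e3 : c3 = 65 / 441 := by linarith
    have e4 : c4 = 46979 / 305613 := by linarith
    have e5 : c5 = 7354 / 101871 := by linarith
    have e6 : c6 = 17077 / 101871 := by linarith
    have e7 : c7 = 4768 / 101871 := by linarith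
    rw [hf', e1, e2, e3, e4, e5, e6, e7, jackA]
  · rintro rfl
    refine ⟨⟨3 / 11, 2 / 21, 65 / 441, 46979 / 305613, 7354 / 101871, 17077 / 101871,
      4768 / 101871, ?_⟩, 164, ?_⟩
    · simp only [jackA, Pc]
      module
    · rw [jackA, eigen_iff]
      norm_num

theorem isJackB (f : MvPolynomial (Fin 5) ℝ) : IsJack 20 nu2 f ↔ f = jackB := by
  rw [isJack_iff, low2_iff]
  constructor
  · rintro ⟨⟨c3, c4, c5, c6, c7, hf⟩, e, he⟩
    have hf' : f = Pc 0 0 1 c3 c4 c5 c6 c7 := by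
      rw [sub_eq_iff_eq_add] at hf
      rw [hf]
      simp only [Pc]
      module
    rw [hf', eigen_iff] at he
    obtain ⟨h0, h1, h2, h3, h4, h5, h6, h7⟩ := he
    have he : e = 143 := by linarith
    subst he
    have e3 : c3 = 2 / 21 := by linarith
    have e4 : c4 = 65 / 441 := by linarith
    have e5 : c5 = 4 / 147 := by linarith
    have e6 : c6 = 4 / 147 := by linarith
    have e7 : c7 = 211 / 6321 := by linarith
    rw [hf', e3, e4, e5, e6, e7, jackB]
  · rintro rfl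
    refine ⟨⟨2 / 21, 65 / 441, 4 / 147, 4 / 147, 211 / 6321, ?_⟩, 143, ?_⟩
    · simp only [jackB, Pc]
      module
    · rw [jackB, eigen_iff]
      norm_num

lemma eval_one_Pc (c0 c1 c2 c3 c4 c5 c6 c7 : ℝ) :
    eval (fun _ => (1 : ℝ)) (Pc c0 c1 c2 c3 c4 c5 c6 c7) =
      60 * c0 + 20 * c1 + 30 * c2 + 30 * c3 + 60 * c4 + 5 * c5 + 20 * c6 + 10 * c7 := by
  simp only [Pc, map_add, smul_eval, eval_monomialSymm]
  rw [em0, em1, em2, em3, em4, em5, em6, em7]
  simp only [m0, m1, m2, m3, m4, m5, m6, m7]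
  ring

lemma Lz_Pc (c0 c1 c2 c3 c4 c5 c6 c7 : ℝ) :
    Lz (F 7 Z0) (Pc c0 c1 c2 c3 c4 c5 c6 c7) =
      720 * c0 + 80 * c1 + 360 * c2 + 360 * c3 + 240 * c4 := by
  have z0 : sumZ Z0 0 (orbL (List.ofFn nu0)) = 720 := by decide +kernel
  have z1 : sumZ Z0 0 (orbL (List.ofFn nu1)) = 80 := by decide +kernel
  have z2 : sumZ Z0 0 (orbL (List.ofFn nu2)) = 360 := by decide +kernel
  have z3 : sumZ Z0 0 (orbL (List.ofFn nu3)) = 360 := by decide +kernel
  have z4 : sumZ Z0 0 (orbL (List.ofFn nu4)) = 240 := by decide +kernel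
  have z5 : sumZ Z0 0 (orbL (List.ofFn nu5)) = 0 := by decide +kernel
  have z6 : sumZ Z0 0 (orbL (List.ofFn nu6)) = 0 := by decide +kernel
  have z7 : sumZ Z0 0 (orbL (List.ofFn nu7)) = 0 := by decide +kernel
  simp only [Pc, map_add, map_smul, smul_eq_mul]
  rw [Lz_monomialSymm nu0 (by decide), Lz_monomialSymm nu1 (by decide),
    Lz_monomialSymm nu2 (by decide), Lz_monomialSymm nu3 (by decide),
    Lz_monomialSymm nu4 (by decide), Lz_monomialSymm nu5 (by decide),
    Lz_monomialSymm nu6 (by decide), Lz_monomialSymm nu7 (by decide),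
    z0, z1, z2, z3, z4, z5, z6, z7]
  push_cast
  ring

theorem not_mem_semiring : normalized jackA - normalized jackB ∉ muirheadSemiring 5 := by
  intro h
  have := good_Z0.nonneg h
  rw [map_sub, normalized, normalized, C_mul', C_mul', map_smul, map_smul, jackA, jackB,
    eval_one_Pc, eval_one_Pc, Lz_Pc, Lz_Pc] at this
  norm_num at this

end Pool.Agent.P.MP_e74401_co
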