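import Pool.Agent.P.MP_e74401_co.MDefs

namespace Pool.Agent.P.MP_e74401_co

def S0 (a b c d e : ℝ) : ℝ :=
  4 * a ^ 4 * b ^ 2 * c + 4 * a ^ 4 * b ^ 2 * d + 4 * a ^ 4 * b ^ 2 * e + 4 * a ^ 4 * b * c ^ 2 +
  4 * a ^ 4 * b * d ^ 2 + 4 * a ^ 4 * b * e ^ 2 + 4 * a ^ 4 * c ^ 2 * d + 4 * a ^ 4 * c ^ 2 * e +
  4 * a ^ 4 * c * d ^ 2 + 4 * a ^ 4 * c * e ^ 2 + 4 * a ^ 4 * d ^ 2 * e + 4 * a ^ 4 * d * e ^ 2 +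
  2 * a ^ 2 * b ^ 4 * c + 2 * a ^ 2 * b ^ 4 * d + 2 * a ^ 2 * b ^ 4 * e + 2 * a ^ 2 * b * c ^ 4 +
  2 * a ^ 2 * b * d ^ 4 + 2 * a ^ 2 * b * e ^ 4 + 2 * a ^ 2 * c ^ 4 * d + 2 * a ^ 2 * c ^ 4 * e +
  2 * a ^ 2 * c * d ^ 4 + 2 * a ^ 2 * c * e ^ 4 + 2 * a ^ 2 * d ^ 4 * e + 2 * a ^ 2 * d * e ^ 4 +
  a * b ^ 4 * c ^ 2 + a * b ^ 4 * d ^ 2 + a * b ^ 4 * e ^ 2 + a * b ^ 2 * c ^ 4 + a * b ^ 2 * d ^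
  4 + a * b ^ 2 * e ^ 4 + a * c ^ 4 * d ^ 2 + a * c ^ 4 * e ^ 2 + a * c ^ 2 * d ^ 4 + a * c ^ 2 *
  e ^ 4 + a * d ^ 4 * e ^ 2 + a * d ^ 2 * e ^ 4

def Q0 (a b c d e : ℝ) : ℝ :=
  4 * a ^ 4 * b ^ 2 * c + 4 * a ^ 4 * b ^ 2 * d + 4 * a ^ 4 * b ^ 2 * e + 4 * a ^ 4 * b * c ^ 2 +
  4 * a ^ 4 * b * d ^ 2 + 4 * a ^ 4 * b * e ^ 2 + 4 * a ^ 4 * c ^ 2 * d + 4 * a ^ 4 * c ^ 2 * e +
  4 * a ^ 4 * c * d ^ 2 + 4 * a ^ 4 * c * e ^ 2 + 4 * a ^ 4 * d ^ 2 * e + 4 * a ^ 4 * d * e ^ 2 +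
  2 * a ^ 3 * b ^ 3 * c + 2 * a ^ 3 * b ^ 3 * d + 2 * a ^ 3 * b ^ 3 * e + 3 * a ^ 3 * b ^ 2 * c ^
  2 + 3 * a ^ 3 * b ^ 2 * d ^ 2 + 3 * a ^ 3 * b ^ 2 * e ^ 2 + 4 * a ^ 3 * b * c ^ 2 * d + 4 * a ^
  3 * b * c ^ 2 * e + 4 * a ^ 3 * b * c * d ^ 2 + 4 * a ^ 3 * b * c * e ^ 2 + 4 * a ^ 3 * b * d ^
  2 * e + 4 * a ^ 3 * b * d * e ^ 2 + 4 * a ^ 2 * b ^ 4 * c + 4 * a ^ 2 * b ^ 4 * d + 4 * a ^ 2 *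
  b ^ 4 * e + 3 * a ^ 2 * b ^ 3 * c ^ 2 + 3 * a ^ 2 * b ^ 3 * d ^ 2 + 3 * a ^ 2 * b ^ 3 * e ^ 2 +
  4 * a ^ 2 * b ^ 2 * c ^ 2 * d + 4 * a ^ 2 * b ^ 2 * c ^ 2 * e + 4 * a ^ 2 * b ^ 2 * c * d ^ 2 +
  4 * a ^ 2 * b ^ 2 * c * e ^ 2 + 4 * a ^ 2 * b ^ 2 * d ^ 2 * e + 4 * a ^ 2 * b ^ 2 * d * e ^ 2 +
  2 * a ^ 2 * b * c ^ 4 + 2 * a ^ 2 * b * d ^ 4 + 2 * a ^ 2 * b * e ^ 4 + 2 * a ^ 2 * c ^ 4 * d +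
  2 * a ^ 2 * c ^ 4 * e + 2 * a ^ 2 * c * d ^ 4 + 2 * a ^ 2 * c * e ^ 4 + 2 * a ^ 2 * d ^ 4 * e +
  2 * a ^ 2 * d * e ^ 4 + 4 * a * b ^ 4 * c ^ 2 + 4 * a * b ^ 4 * d ^ 2 + 4 * a * b ^ 4 * e ^ 2 +
  4 * a * b ^ 3 * c ^ 2 * d + 4 * a * b ^ 3 * c ^ 2 * e + 4 * a * b ^ 3 * c * d ^ 2 + 4 * a * b ^
  3 * c * e ^ 2 + 4 * a * b ^ 3 * d ^ 2 * e + 4 * a * b ^ 3 * d * e ^ 2 + 2 * a * b ^ 2 * c ^ 4 +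
  2 * a * b ^ 2 * d ^ 4 + 2 * a * b ^ 2 * e ^ 4 + 2 * a * b * c ^ 4 * d + 2 * a * b * c ^ 4 * e +
  2 * a * b * c * d ^ 4 + 2 * a * b * c * e ^ 4 + 2 * a * b * d ^ 4 * e + 2 * a * b * d * e ^ 4 +
  a * c ^ 4 * d ^ 2 + a * c ^ 4 * e ^ 2 + a * c ^ 2 * d ^ 4 + a * c ^ 2 * e ^ 4 + a * d ^ 4 * e ^
  2 + a * d ^ 2 * e ^ 4 + 4 * b ^ 4 * c ^ 2 * d + 4 * b ^ 4 * c ^ 2 * e + 4 * b ^ 4 * c * d ^ 2 +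
  4 * b ^ 4 * c * e ^ 2 + 4 * b ^ 4 * d ^ 2 * e + 4 * b ^ 4 * d * e ^ 2 + 2 * b ^ 2 * c ^ 4 * d +
  2 * b ^ 2 * c ^ 4 * e + 2 * b ^ 2 * c * d ^ 4 + 2 * b ^ 2 * c * e ^ 4 + 2 * b ^ 2 * d ^ 4 * e +
  2 * b ^ 2 * d * e ^ 4 + b * c ^ 4 * d ^ 2 + b * c ^ 4 * e ^ 2 + b * c ^ 2 * d ^ 4 + b * c ^ 2 *
  e ^ 4 + b * d ^ 4 * e ^ 2 + b * d ^ 2 * e ^ 4

lemma LL0 : (List.ofFn nu0).permutations'.dedup =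
    [[4, 2, 1, 0, 0], [2, 4, 1, 0, 0], [2, 1, 4, 0, 0], [2, 1, 0, 4, 0], [2, 1, 0, 0, 4], [4, 1, 2,
    0, 0], [1, 4, 2, 0, 0], [1, 2, 4, 0, 0], [1, 2, 0, 4, 0], [1, 2, 0, 0, 4], [4, 1, 0, 2, 0], [1,
    4, 0, 2, 0], [1, 0, 4, 2, 0], [1, 0, 2, 4, 0], [1, 0, 2, 0, 4], [4, 1, 0, 0, 2], [1, 4, 0, 0,
    2], [1, 0, 4, 0, 2], [1, 0, 0, 4, 2], [1, 0, 0, 2, 4], [4, 2, 0, 1, 0], [2, 4, 0, 1, 0], [2, 0,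
    4, 1, 0], [2, 0, 1, 4, 0], [2, 0, 1, 0, 4], [4, 0, 2, 1, 0], [0, 4, 2, 1, 0], [0, 2, 4, 1, 0],
    [0, 2, 1, 4, 0], [0, 2, 1, 0, 4], [4, 0, 1, 2, 0], [0, 4, 1, 2, 0], [0, 1, 4, 2, 0], [0, 1, 2,
    4, 0], [0, 1, 2, 0, 4], [4, 0, 1, 0, 2], [0, 4, 1, 0, 2], [0, 1, 4, 0, 2], [0, 1, 0, 4, 2], [0,
    1, 0, 2, 4], [4, 2, 0, 0, 1], [2, 4, 0, 0, 1], [2, 0, 4, 0, 1], [2, 0, 0, 4, 1], [2, 0, 0, 1,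
    4], [4, 0, 2, 0, 1], [0, 4, 2, 0, 1], [0, 2, 4, 0, 1], [0, 2, 0, 4, 1], [0, 2, 0, 1, 4], [4, 0,
    0, 2, 1], [0, 4, 0, 2, 1], [0, 0, 4, 2, 1], [0, 0, 2, 4, 1], [0, 0, 2, 1, 4], [4, 0, 0, 1, 2],
    [0, 4, 0, 1, 2], [0, 0, 4, 1, 2], [0, 0, 1, 4, 2], [0, 0, 1, 2, 4]] := by
  decide +kernel

lemma em0 (x : Fin 5 → ℝ) :
    ∑ η ∈ orb nu0, E x η = m0 (x 0) (x 1) (x 2) (x 3) (x 4) := by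
  rw [sum_orb, LL0]
  simp only [List.map_cons, List.map_nil, List.sum_cons, List.sum_nil, E_vec, m0]
  ring

lemma es0_0 (x : Fin 5 → ℝ) :
    ∑ η ∈ orb nu0, (η 0 : ℝ) * E x η = S0 (x 0) (x 1) (x 2) (x 3) (x 4) := by
  rw [sum_orb, LL0]
  simp only [List.map_cons, List.map_nil, List.sum_cons, List.sum_nil, E_vec, vec0,
    Nat.cast_ofNat, Nat.cast_zero, Nat.cast_one, S0]
  ring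

lemma es0_1 (x : Fin 5 → ℝ) :
    ∑ η ∈ orb nu0, (η 1 : ℝ) * E x η = S0 (x 1) (x 0) (x 2) (x 3) (x 4) := by
  rw [sum_orb, LL0]
  simp only [List.map_cons, List.map_nil, List.sum_cons, List.sum_nil, E_vec, vec1,
    Nat.cast_ofNat, Nat.cast_zero, Nat.cast_one, S0]
  ring

lemma es0_2 (x : Fin 5 → ℝ) :
    ∑ η ∈ orb nu0, (η 2 : ℝ) * E x η = S0 (x 2) (x 0) (x 1) (x 3) (x 4) := by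
  rw [sum_orb, LL0]
  simp only [List.map_cons, List.map_nil, List.sum_cons, List.sum_nil, E_vec, vec2,
    Nat.cast_ofNat, Nat.cast_zero, Nat.cast_one, S0]
  ring

lemma es0_3 (x : Fin 5 → ℝ) :
    ∑ η ∈ orb nu0, (η 3 : ℝ) * E x η = S0 (x 3) (x 0) (x 1) (x 2) (x 4) := by
  rw [sum_orb, LL0]
  simp only [List.map_cons, List.map_nil, List.sum_cons, List.sum_nil, E_vec, vec3,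
    Nat.cast_ofNat, Nat.cast_zero, Nat.cast_one, S0]
  ring

lemma es0_4 (x : Fin 5 → ℝ) :
    ∑ η ∈ orb nu0, (η 4 : ℝ) * E x η = S0 (x 4) (x 0) (x 1) (x 2) (x 3) := by
  rw [sum_orb, LL0]
  simp only [List.map_cons, List.map_nil, List.sum_cons, List.sum_nil, E_vec, vec4,
    Nat.cast_ofNat, Nat.cast_zero, Nat.cast_one, S0]
  ring

lemma dop0 (α : ℝ) (x : Fin 5 → ℝ) (hx : Function.Injective x) :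
    Dop α x (monomialSymm nu0) = (α / 2 * 14 + 24) * m0 (x 0) (x 1) (x 2) (x 3) (x 4) +
      6 * m1 (x 0) (x 1) (x 2) (x 3) (x 4) +
      2 * m2 (x 0) (x 1) (x 2) (x 3) (x 4) +
      6 * m3 (x 0) (x 1) (x 2) (x 3) (x 4) +
      8 * m4 (x 0) (x 1) (x 2) (x 3) (x 4) +
      12 * m6 (x 0) (x 1) (x 2) (x 3) (x 4) := by
  have hr : (∑ i, (nu0 i : ℝ) * (nu0 i - 1)) = 14 := by
    simp [Fin.sum_univ_five, nu0]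
    norm_num
  rw [Dop_monomialSymm, sum_pairs, hr, em0, es0_0, es0_1, es0_2, es0_3, es0_4]
  rw [pair_eq (Q := Q0 (x 0) (x 1) (x 2) (x 3) (x 4)) (hx.ne (by decide : (0 : Fin 5) ≠ 1))
    (by simp only [S0, Q0]; ring)]
  rw [pair_eq (Q := Q0 (x 0) (x 2) (x 1) (x 3) (x 4)) (hx.ne (by decide : (0 : Fin 5) ≠ 2))
    (by simp only [S0, Q0]; ring)]
  rw [pair_eq (Q := Q0 (x 0) (x 3) (x 1) (x 2) (x 4)) (hx.ne (by decide : (0 : Fin 5) ≠ 3))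
    (by simp only [S0, Q0]; ring)]
  rw [pair_eq (Q := Q0 (x 0) (x 4) (x 1) (x 2) (x 3)) (hx.ne (by decide : (0 : Fin 5) ≠ 4))
    (by simp only [S0, Q0]; ring)]
  rw [pair_eq (Q := Q0 (x 1) (x 2) (x 0) (x 3) (x 4)) (hx.ne (by decide : (1 : Fin 5) ≠ 2))
    (by simp only [S0, Q0]; ring)]
  rw [pair_eq (Q := Q0 (x 1) (x 3) (x 0) (x 2) (x 4)) (hx.ne (by decide : (1 : Fin 5) ≠ 3))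
    (by simp only [S0, Q0]; ring)]
  rw [pair_eq (Q := Q0 (x 1) (x 4) (x 0) (x 2) (x 3)) (hx.ne (by decide : (1 : Fin 5) ≠ 4))
    (by simp only [S0, Q0]; ring)]
  rw [pair_eq (Q := Q0 (x 2) (x 3) (x 0) (x 1) (x 4)) (hx.ne (by decide : (2 : Fin 5) ≠ 3))
    (by simp only [S0, Q0]; ring)]
  rw [pair_eq (Q := Q0 (x 2) (x 4) (x 0) (x 1) (x 3)) (hx.ne (by decide : (2 : Fin 5) ≠ 4))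
    (by simp only [S0, Q0]; ring)]
  rw [pair_eq (Q := Q0 (x 3) (x 4) (x 0) (x 1) (x 2)) (hx.ne (by decide : (3 : Fin 5) ≠ 4))
    (by simp only [S0, Q0]; ring)]
  simp only [Q0, m0, m1, m2, m3, m4, m6]
  ring

end Pool.Agent.P.MP_e74401_co
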