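import Pool.Agent.P.MP_e74401_co.Op

namespace Pool.Agent.P.MP_e74401_co

def nu0 : Fin 5 → ℕ := ![4, 2, 1, 0, 0]

def m0 (a b c d e : ℝ) : ℝ :=
  a ^ 4 * b ^ 2 * c + a ^ 4 * b ^ 2 * d + a ^ 4 * b ^ 2 * e + a ^ 4 * b * c ^ 2 + a ^ 4 * b * d ^
  2 + a ^ 4 * b * e ^ 2 + a ^ 4 * c ^ 2 * d + a ^ 4 * c ^ 2 * e + a ^ 4 * c * d ^ 2 + a ^ 4 * c *
  e ^ 2 + a ^ 4 * d ^ 2 * e + a ^ 4 * d * e ^ 2 + a ^ 2 * b ^ 4 * c + a ^ 2 * b ^ 4 * d + a ^ 2 *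
  b ^ 4 * e + a ^ 2 * b * c ^ 4 + a ^ 2 * b * d ^ 4 + a ^ 2 * b * e ^ 4 + a ^ 2 * c ^ 4 * d + a ^
  2 * c ^ 4 * e + a ^ 2 * c * d ^ 4 + a ^ 2 * c * e ^ 4 + a ^ 2 * d ^ 4 * e + a ^ 2 * d * e ^ 4 +
  a * b ^ 4 * c ^ 2 + a * b ^ 4 * d ^ 2 + a * b ^ 4 * e ^ 2 + a * b ^ 2 * c ^ 4 + a * b ^ 2 * d ^
  4 + a * b ^ 2 * e ^ 4 + a * c ^ 4 * d ^ 2 + a * c ^ 4 * e ^ 2 + a * c ^ 2 * d ^ 4 + a * c ^ 2 *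
  e ^ 4 + a * d ^ 4 * e ^ 2 + a * d ^ 2 * e ^ 4 + b ^ 4 * c ^ 2 * d + b ^ 4 * c ^ 2 * e + b ^ 4 *
  c * d ^ 2 + b ^ 4 * c * e ^ 2 + b ^ 4 * d ^ 2 * e + b ^ 4 * d * e ^ 2 + b ^ 2 * c ^ 4 * d + b ^
  2 * c ^ 4 * e + b ^ 2 * c * d ^ 4 + b ^ 2 * c * e ^ 4 + b ^ 2 * d ^ 4 * e + b ^ 2 * d * e ^ 4 +
  b * c ^ 4 * d ^ 2 + b * c ^ 4 * e ^ 2 + b * c ^ 2 * d ^ 4 + b * c ^ 2 * e ^ 4 + b * d ^ 4 * e ^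
  2 + b * d ^ 2 * e ^ 4 + c ^ 4 * d ^ 2 * e + c ^ 4 * d * e ^ 2 + c ^ 2 * d ^ 4 * e + c ^ 2 * d *
  e ^ 4 + c * d ^ 4 * e ^ 2 + c * d ^ 2 * e ^ 4

def nu1 : Fin 5 → ℕ := ![4, 1, 1, 1, 0]

def m1 (a b c d e : ℝ) : ℝ :=
  a ^ 4 * b * c * d + a ^ 4 * b * c * e + a ^ 4 * b * d * e + a ^ 4 * c * d * e + a * b ^ 4 * c *
  d + a * b ^ 4 * c * e + a * b ^ 4 * d * e + a * b * c ^ 4 * d + a * b * c ^ 4 * e + a * b * c *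
  d ^ 4 + a * b * c * e ^ 4 + a * b * d ^ 4 * e + a * b * d * e ^ 4 + a * c ^ 4 * d * e + a * c *
  d ^ 4 * e + a * c * d * e ^ 4 + b ^ 4 * c * d * e + b * c ^ 4 * d * e + b * c * d ^ 4 * e + b *
  c * d * e ^ 4

def nu2 : Fin 5 → ℕ := ![3, 3, 1, 0, 0]

def m2 (a b c d e : ℝ) : ℝ :=
  a ^ 3 * b ^ 3 * c + a ^ 3 * b ^ 3 * d + a ^ 3 * b ^ 3 * e + a ^ 3 * b * c ^ 3 + a ^ 3 * b * d ^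
  3 + a ^ 3 * b * e ^ 3 + a ^ 3 * c ^ 3 * d + a ^ 3 * c ^ 3 * e + a ^ 3 * c * d ^ 3 + a ^ 3 * c *
  e ^ 3 + a ^ 3 * d ^ 3 * e + a ^ 3 * d * e ^ 3 + a * b ^ 3 * c ^ 3 + a * b ^ 3 * d ^ 3 + a * b ^
  3 * e ^ 3 + a * c ^ 3 * d ^ 3 + a * c ^ 3 * e ^ 3 + a * d ^ 3 * e ^ 3 + b ^ 3 * c ^ 3 * d + b ^
  3 * c ^ 3 * e + b ^ 3 * c * d ^ 3 + b ^ 3 * c * e ^ 3 + b ^ 3 * d ^ 3 * e + b ^ 3 * d * e ^ 3 +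
  b * c ^ 3 * d ^ 3 + b * c ^ 3 * e ^ 3 + b * d ^ 3 * e ^ 3 + c ^ 3 * d ^ 3 * e + c ^ 3 * d * e ^
  3 + c * d ^ 3 * e ^ 3

def nu3 : Fin 5 → ℕ := ![3, 2, 2, 0, 0]

def m3 (a b c d e : ℝ) : ℝ :=
  a ^ 3 * b ^ 2 * c ^ 2 + a ^ 3 * b ^ 2 * d ^ 2 + a ^ 3 * b ^ 2 * e ^ 2 + a ^ 3 * c ^ 2 * d ^ 2 +
  a ^ 3 * c ^ 2 * e ^ 2 + a ^ 3 * d ^ 2 * e ^ 2 + a ^ 2 * b ^ 3 * c ^ 2 + a ^ 2 * b ^ 3 * d ^ 2 +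
  a ^ 2 * b ^ 3 * e ^ 2 + a ^ 2 * b ^ 2 * c ^ 3 + a ^ 2 * b ^ 2 * d ^ 3 + a ^ 2 * b ^ 2 * e ^ 3 +
  a ^ 2 * c ^ 3 * d ^ 2 + a ^ 2 * c ^ 3 * e ^ 2 + a ^ 2 * c ^ 2 * d ^ 3 + a ^ 2 * c ^ 2 * e ^ 3 +
  a ^ 2 * d ^ 3 * e ^ 2 + a ^ 2 * d ^ 2 * e ^ 3 + b ^ 3 * c ^ 2 * d ^ 2 + b ^ 3 * c ^ 2 * e ^ 2 +
  b ^ 3 * d ^ 2 * e ^ 2 + b ^ 2 * c ^ 3 * d ^ 2 + b ^ 2 * c ^ 3 * e ^ 2 + b ^ 2 * c ^ 2 * d ^ 3 +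
  b ^ 2 * c ^ 2 * e ^ 3 + b ^ 2 * d ^ 3 * e ^ 2 + b ^ 2 * d ^ 2 * e ^ 3 + c ^ 3 * d ^ 2 * e ^ 2 +
  c ^ 2 * d ^ 3 * e ^ 2 + c ^ 2 * d ^ 2 * e ^ 3

def nu4 : Fin 5 → ℕ := ![3, 2, 1, 1, 0]

def m4 (a b c d e : ℝ) : ℝ :=
  a ^ 3 * b ^ 2 * c * d + a ^ 3 * b ^ 2 * c * e + a ^ 3 * b ^ 2 * d * e + a ^ 3 * b * c ^ 2 * d +
  a ^ 3 * b * c ^ 2 * e + a ^ 3 * b * c * d ^ 2 + a ^ 3 * b * c * e ^ 2 + a ^ 3 * b * d ^ 2 * e +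
  a ^ 3 * b * d * e ^ 2 + a ^ 3 * c ^ 2 * d * e + a ^ 3 * c * d ^ 2 * e + a ^ 3 * c * d * e ^ 2 +
  a ^ 2 * b ^ 3 * c * d + a ^ 2 * b ^ 3 * c * e + a ^ 2 * b ^ 3 * d * e + a ^ 2 * b * c ^ 3 * d +
  a ^ 2 * b * c ^ 3 * e + a ^ 2 * b * c * d ^ 3 + a ^ 2 * b * c * e ^ 3 + a ^ 2 * b * d ^ 3 * e +
  a ^ 2 * b * d * e ^ 3 + a ^ 2 * c ^ 3 * d * e + a ^ 2 * c * d ^ 3 * e + a ^ 2 * c * d * e ^ 3 +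
  a * b ^ 3 * c ^ 2 * d + a * b ^ 3 * c ^ 2 * e + a * b ^ 3 * c * d ^ 2 + a * b ^ 3 * c * e ^ 2 +
  a * b ^ 3 * d ^ 2 * e + a * b ^ 3 * d * e ^ 2 + a * b ^ 2 * c ^ 3 * d + a * b ^ 2 * c ^ 3 * e +
  a * b ^ 2 * c * d ^ 3 + a * b ^ 2 * c * e ^ 3 + a * b ^ 2 * d ^ 3 * e + a * b ^ 2 * d * e ^ 3 +
  a * b * c ^ 3 * d ^ 2 + a * b * c ^ 3 * e ^ 2 + a * b * c ^ 2 * d ^ 3 + a * b * c ^ 2 * e ^ 3 +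
  a * b * d ^ 3 * e ^ 2 + a * b * d ^ 2 * e ^ 3 + a * c ^ 3 * d ^ 2 * e + a * c ^ 3 * d * e ^ 2 +
  a * c ^ 2 * d ^ 3 * e + a * c ^ 2 * d * e ^ 3 + a * c * d ^ 3 * e ^ 2 + a * c * d ^ 2 * e ^ 3 +
  b ^ 3 * c ^ 2 * d * e + b ^ 3 * c * d ^ 2 * e + b ^ 3 * c * d * e ^ 2 + b ^ 2 * c ^ 3 * d * e +
  b ^ 2 * c * d ^ 3 * e + b ^ 2 * c * d * e ^ 3 + b * c ^ 3 * d ^ 2 * e + b * c ^ 3 * d * e ^ 2 +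
  b * c ^ 2 * d ^ 3 * e + b * c ^ 2 * d * e ^ 3 + b * c * d ^ 3 * e ^ 2 + b * c * d ^ 2 * e ^ 3

def nu5 : Fin 5 → ℕ := ![3, 1, 1, 1, 1]

def m5 (a b c d e : ℝ) : ℝ :=
  a ^ 3 * b * c * d * e + a * b ^ 3 * c * d * e + a * b * c ^ 3 * d * e + a * b * c * d ^ 3 * e +
  a * b * c * d * e ^ 3

def nu6 : Fin 5 → ℕ := ![2, 2, 2, 1, 0]

def m6 (a b c d e : ℝ) : ℝ :=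
  a ^ 2 * b ^ 2 * c ^ 2 * d + a ^ 2 * b ^ 2 * c ^ 2 * e + a ^ 2 * b ^ 2 * c * d ^ 2 + a ^ 2 * b ^
  2 * c * e ^ 2 + a ^ 2 * b ^ 2 * d ^ 2 * e + a ^ 2 * b ^ 2 * d * e ^ 2 + a ^ 2 * b * c ^ 2 * d ^
  2 + a ^ 2 * b * c ^ 2 * e ^ 2 + a ^ 2 * b * d ^ 2 * e ^ 2 + a ^ 2 * c ^ 2 * d ^ 2 * e + a ^ 2 *
  c ^ 2 * d * e ^ 2 + a ^ 2 * c * d ^ 2 * e ^ 2 + a * b ^ 2 * c ^ 2 * d ^ 2 + a * b ^ 2 * c ^ 2 *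
  e ^ 2 + a * b ^ 2 * d ^ 2 * e ^ 2 + a * c ^ 2 * d ^ 2 * e ^ 2 + b ^ 2 * c ^ 2 * d ^ 2 * e + b ^
  2 * c ^ 2 * d * e ^ 2 + b ^ 2 * c * d ^ 2 * e ^ 2 + b * c ^ 2 * d ^ 2 * e ^ 2

def nu7 : Fin 5 → ℕ := ![2, 2, 1, 1, 1]

def m7 (a b c d e : ℝ) : ℝ :=
  a ^ 2 * b ^ 2 * c * d * e + a ^ 2 * b * c ^ 2 * d * e + a ^ 2 * b * c * d ^ 2 * e + a ^ 2 * b *
  c * d * e ^ 2 + a * b ^ 2 * c ^ 2 * d * e + a * b ^ 2 * c * d ^ 2 * e + a * b ^ 2 * c * d * e ^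
  2 + a * b * c ^ 2 * d ^ 2 * e + a * b * c ^ 2 * d * e ^ 2 + a * b * c * d ^ 2 * e ^ 2

end Pool.Agent.P.MP_e74401_co
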