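import Pool.Agent.P.MP_e74401_co.Sound

open MvPolynomial

namespace Pool.Agent.P.MP_e74401_co

variable {n : ℕ}

/-- The Laplace-Beltrami operator evaluated at a point. -/
noncomputable def Dop (α : ℝ) (x : Fin n → ℝ) (f : MvPolynomial (Fin n) ℝ) : ℝ :=
  α / 2 * ∑ i, x i ^ 2 * eval x (pderiv i (pderiv i f)) +
    ∑ i, ∑ j ∈ Finset.univ.erase i, x i ^ 2 / (x i - x j) * eval x (pderiv i f)

lemma Dop_add (α : ℝ) (x : Fin n → ℝ) (f g : MvPolynomial (Fin n) ℝ) :
    Dop α x (f + g) = Dop α x f + Dop α x g := by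
  simp only [Dop, map_add, mul_add, Finset.sum_add_distrib]
  ring

lemma Dop_smul (α : ℝ) (x : Fin n → ℝ) (c : ℝ) (f : MvPolynomial (Fin n) ℝ) :
    Dop α x (c • f) = c * Dop α x f := by
  simp only [Dop, Derivation.map_smul, smul_eval, mul_add, Finset.mul_sum]
  congr 1
  · exact Finset.sum_congr rfl fun i _ => by ring
  · exact Finset.sum_congr rfl fun i _ => Finset.sum_congr rfl fun j _ => by ring

lemma Dop_sum (α : ℝ) (x : Fin n → ℝ) {ι : Type*} (s : Finset ι)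
    (f : ι → MvPolynomial (Fin n) ℝ) : Dop α x (∑ k ∈ s, f k) = ∑ k ∈ s, Dop α x (f k) := by
  classical
  induction s using Finset.induction_on with
  | empty => simp [Dop]
  | insert a s ha ih => rw [Finset.sum_insert ha, Finset.sum_insert ha, Dop_add, ih]

/-- The value of a monomial. -/
def E (x : Fin n → ℝ) (η : Fin n → ℕ) : ℝ := ∏ i, x i ^ η i

lemma eval_xpow (x : Fin n → ℝ) (η : Fin n → ℕ) : eval x (xpow η) = E x η := by
  simp [xpow, E]

lemma X_pderiv_xpow (i : Fin n) (η : Fin n → ℕ) :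
    X i * pderiv i (xpow η) = (η i : ℝ) • xpow η := by
  rw [xpow_eq, X_mul_pderiv_monomial, Nat.cast_smul_eq_nsmul]
  rfl

lemma d1_xpow (x : Fin n → ℝ) (i : Fin n) (η : Fin n → ℕ) :
    x i * eval x (pderiv i (xpow η)) = η i * E x η := by
  have := congrArg (eval x) (X_pderiv_xpow i η)
  rwa [map_mul, eval_X, smul_eval, eval_xpow] at this

lemma d2_xpow (x : Fin n → ℝ) (i : Fin n) (η : Fin n → ℕ) :
    x i ^ 2 * eval x (pderiv i (pderiv i (xpow η))) = η i * (η i - 1) * E x η := by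
  have h1 := congrArg (fun f => eval x (pderiv i f)) (X_pderiv_xpow i η)
  simp only [Derivation.leibniz, pderiv_X_self, smul_eq_mul, mul_one, map_add, map_mul, eval_X,
    Derivation.map_smul, smul_eval] at h1
  have h2 := d1_xpow x i η
  linear_combination x i * h1 + (η i - 1) * h2

lemma Dop_monomialSymm (α : ℝ) (x : Fin n → ℝ) (ν : Fin n → ℕ) :
    Dop α x (monomialSymm ν) = α / 2 * (∑ i, (ν i : ℝ) * (ν i - 1)) * (∑ η ∈ orb ν, E x η) +
      ∑ i, ∑ j ∈ Finset.univ.erase i, x i / (x i - x j) * ∑ η ∈ orb ν, η i * E x η := by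
  rw [monomialSymm_eq, Dop_sum]
  simp only [Dop, Finset.sum_add_distrib]
  congr 1
  · rw [Finset.mul_sum (orb ν)]
    refine Finset.sum_congr rfl fun η hη => ?_
    obtain ⟨w, -, rfl⟩ := Finset.mem_image.mp hη
    simp only [d2_xpow]
    rw [← Finset.sum_mul, mul_assoc]
    congr 2
    exact Equiv.sum_comp w (fun i => (ν i : ℝ) * (ν i - 1))
  · rw [Finset.sum_comm]
    refine Finset.sum_congr rfl fun i _ => ?_
    rw [Finset.sum_comm]
    refine Finset.sum_congr rfl fun j _ => ?_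
    rw [Finset.mul_sum]
    refine Finset.sum_congr rfl fun η _ => ?_
    rw [← d1_xpow]
    ring

lemma eval_monomialSymm (x : Fin n → ℝ) (ν : Fin n → ℕ) :
    eval x (monomialSymm ν) = ∑ η ∈ orb ν, E x η := by
  rw [monomialSymm_eq, map_sum]
  simp only [eval_xpow]

lemma sum_pairs (g : Fin 5 → Fin 5 → ℝ) : ∑ i, ∑ j ∈ Finset.univ.erase i, g i j =
    (g 0 1 + g 1 0) + (g 0 2 + g 2 0) + (g 0 3 + g 3 0) + (g 0 4 + g 4 0) + (g 1 2 + g 2 1) +
      (g 1 3 + g 3 1) + (g 1 4 + g 4 1) + (g 2 3 + g 3 2) + (g 2 4 + g 4 2) +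
      (g 3 4 + g 4 3) := by
  simp only [Finset.sum_erase_eq_sub (Finset.mem_univ _), Fin.sum_univ_five]
  ring

lemma pair_eq {u v S T Q : ℝ} (h : u ≠ v) (hQ : u * S - v * T = (u - v) * Q) :
    u / (u - v) * S + v / (v - u) * T = Q := by
  have h1 : u - v ≠ 0 := sub_ne_zero.mpr h
  have h2 : v - u ≠ 0 := sub_ne_zero.mpr h.symm
  have h3 : v / (v - u) = -(v / (u - v)) := by
    rw [← neg_sub u v, div_neg]
  rw [h3]
  field_simp
  linear_combination hQ

lemma E_vec (x : Fin 5 → ℝ) (p q r s t : ℕ) :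
    E x (vec [p, q, r, s, t]) = x 0 ^ p * x 1 ^ q * x 2 ^ r * x 3 ^ s * x 4 ^ t := by
  simp [E, Fin.prod_univ_five, vec]

lemma vec0 (p q r s t : ℕ) : vec [p, q, r, s, t] 0 = p := rfl
lemma vec1 (p q r s t : ℕ) : vec [p, q, r, s, t] 1 = q := rfl
lemma vec2 (p q r s t : ℕ) : vec [p, q, r, s, t] 2 = r := rfl
lemma vec3 (p q r s t : ℕ) : vec [p, q, r, s, t] 3 = s := rfl
lemma vec4 (p q r s t : ℕ) : vec [p, q, r, s, t] 4 = t := rfl

end Pool.Agent.P.MP_e74401_co
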