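import Pool.Agent.P.MP_e74401_co.Cone
import Pool.Agent.P.MP_e74401_co.Check

open MvPolynomial

namespace Pool.Agent.P.MP_e74401_co

def vec (l : List ℕ) : Fin 5 → ℕ := fun i => l.getD i 0

lemma vec_ofFn (η : Fin 5 → ℕ) : vec (List.ofFn η) = η := by
  ext i
  fin_cases i <;> simp [vec]

lemma ofFn_vec {l : List ℕ} (h : l.length = 5) : List.ofFn (vec l) = l := by
  apply List.ext_getElem
  · simp [h]
  · intro i h1 h2
    rw [List.getElem_ofFn, vec, List.getD_eq_getElem _ _ h2]

lemma sum_orb {M : Type*} [AddCommMonoid M] (lam : Fin 5 → ℕ) (g : (Fin 5 → ℕ) → M) :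
    ∑ η ∈ orb lam, g η = ((List.ofFn lam).permutations'.dedup.map fun l => g (vec l)).sum := by
  rw [← List.sum_toFinset _ (List.nodup_dedup _)]
  refine Finset.sum_nbij' (fun η => List.ofFn η) vec ?_ ?_ ?_ ?_ ?_
  · intro η h
    rw [List.mem_toFinset, List.mem_dedup, List.mem_permutations']
    exact mem_orb.mp h
  · intro l h
    have h' : l.Perm (List.ofFn lam) := by
      rwa [List.mem_toFinset, List.mem_dedup, List.mem_permutations'] at h
    rw [mem_orb, ofFn_vec (by rw [h'.length_eq, List.length_ofFn])]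
    exact h'
  · intro η _
    exact vec_ofFn η
  · intro l h
    have h' : l.Perm (List.ofFn lam) := by
      rwa [List.mem_toFinset, List.mem_dedup, List.mem_permutations'] at h
    exact ofFn_vec (by rw [h'.length_eq, List.length_ofFn])
  · intro η _
    rw [vec_ofFn]

def code (θ : Fin 5 → ℕ) : ℕ := θ 0 + 8 * θ 1 + 64 * θ 2 + 512 * θ 3

lemma code_add (η θ : Fin 5 → ℕ) : code (η + θ) = code η + code θ := by
  simp only [code, Pi.add_apply]
  ring

lemma card_orb (lam : Fin 5 → ℕ) : (orb lam).card = (orbL (List.ofFn lam)).length := by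
  rw [Finset.card_eq_sum_ones, sum_orb]
  simp [orbL]

lemma sumZ_eq (Z : ℕ → ℤ) (c : ℕ) (A : List ℕ) :
    (sumZ Z c A : ℝ) = (A.map fun a => (Z (a + c) : ℝ)).sum := by
  induction A with
  | nil => simp [sumZ]
  | cons a t ih => simp [sumZ, ih]

lemma sum_orb_code (lam : Fin 5 → ℕ) (Z : ℕ → ℤ) (c : ℕ) :
    ∑ η ∈ orb lam, (Z (code η + c) : ℝ) = sumZ Z c (orbL (List.ofFn lam)) := by
  rw [sum_orb, sumZ_eq, orbL, List.map_map]
  rfl

/-- The functional of degree `e` given by the table `Z`. -/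
noncomputable def F (e : ℕ) (Z : ℕ → ℤ) (θ : Fin 5 → ℕ) : ℝ :=
  if ∑ i, θ i = e then (Z (code θ) : ℝ) else 0

lemma code_mem_allv (θ : Fin 5 → ℕ) {e : ℕ} (h : ∑ i, θ i = e) : code θ ∈ allv e := by
  rw [Fin.sum_univ_five] at h
  simp only [allv, List.mem_flatMap, List.mem_map, List.mem_range]
  exact ⟨θ 0, by omega, θ 1, by omega, θ 2, by omega, θ 3, by omega, rfl⟩

lemma ofFn_five (lam : Fin 5 → ℕ) : List.ofFn lam = [lam 0, lam 1, lam 2, lam 3, lam 4] := by
  simp [List.ofFn_succ]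

lemma mem_orbs {lam : Fin 5 → ℕ} (h : Antitone lam) (h7 : ∑ i, lam i ≤ 7) :
    (List.ofFn lam, orbL (List.ofFn lam)) ∈ orbs := by
  rw [Fin.sum_univ_five] at h7
  have h01 : lam 1 ≤ lam 0 := h (by decide)
  have h12 : lam 2 ≤ lam 1 := h (by decide)
  have h23 : lam 3 ≤ lam 2 := h (by decide)
  have h34 : lam 4 ≤ lam 3 := h (by decide)
  have := parts_ok (lam 0) (List.mem_range.mpr (by omega)) (lam 1) (List.mem_range.mpr (by omega))
    (lam 2) (List.mem_range.mpr (by omega)) (lam 3) (List.mem_range.mpr (by omega))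
    (lam 4) (List.mem_range.mpr (by omega)) h7
  rw [← ofFn_five] at this
  obtain ⟨p, hp, hp1⟩ := List.mem_map.mp this
  rw [← hp1, orbs_ok p hp]
  exact hp

lemma majorizes_iff (lam mu : Fin 5 → ℕ) : Majorizes lam mu ↔
    (mu 0 ≤ lam 0 ∧ mu 0 + mu 1 ≤ lam 0 + lam 1 ∧ mu 0 + mu 1 + mu 2 ≤ lam 0 + lam 1 + lam 2 ∧
      mu 0 + mu 1 + mu 2 + mu 3 ≤ lam 0 + lam 1 + lam 2 + lam 3) ∧
      lam 0 + lam 1 + lam 2 + lam 3 + lam 4 = mu 0 + mu 1 + mu 2 + mu 3 + mu 4 := by
  have e0 : Finset.Iic (0 : Fin 5) = {0} := by decide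
  have e1 : Finset.Iic (1 : Fin 5) = {0, 1} := by decide
  have e2 : Finset.Iic (2 : Fin 5) = {0, 1, 2} := by decide
  have e3 : Finset.Iic (3 : Fin 5) = {0, 1, 2, 3} := by decide
  have e4 : Finset.Iic (4 : Fin 5) = {0, 1, 2, 3, 4} := by decide
  simp only [Majorizes, Fin.sum_univ_five, Fin.forall_fin_succ, Fin.succ_zero_eq_one,
    Fin.succ_one_eq_two, IsEmpty.forall_iff, and_true]
  rw [show (Fin.succ 2 : Fin 4) = 3 from rfl, show (Fin.succ 2 : Fin 5) = 3 from rfl,
    show (Fin.succ 3 : Fin 5) = 4 from rfl, e0, e1, e2, e3, e4]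
  simp
  omega

lemma majL_of {lam mu : Fin 5 → ℕ} (h : Majorizes lam mu) :
    majL (List.ofFn lam) (List.ofFn mu) = true := by
  rw [majorizes_iff] at h
  rw [ofFn_five, ofFn_five]
  simp [majL, List.range_succ]
  omega

lemma aux_frac (a b u v : ℝ) (ha : 0 < a) (hb : 0 < b) :
    a⁻¹ * u - b⁻¹ * v = (a * b)⁻¹ * (b * u - a * v) := by
  field_simp

theorem good_of_chk : ∀ (f e : ℕ) (Z : ℕ → ℤ), e ≤ 7 → chk f e Z = true → Good (F e Z) := by
  intro f
  induction f with
  | zero => intro e Z _ h; simp [chk] at h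
  | succ f ih =>
    intro e Z he h
    simp only [chk, Bool.and_eq_true, List.all_eq_true, decide_eq_true_eq, Bool.or_eq_true] at h
    obtain ⟨h0, h1⟩ := h
    apply good_of_step
    · intro θ
      unfold F
      split_ifs with hθ
      · exact_mod_cast h0 _ (code_mem_allv θ hθ)
      · exact le_rfl
    · intro lam mu a1 a2 a3 hne
      have hsum : ∀ {ν η : Fin 5 → ℕ} (θ : Fin 5 → ℕ), η ∈ orb ν →
          ∑ i, (η + θ) i = ∑ i, ν i + ∑ i, θ i := by
        intro ν η θ hη
        simp only [Pi.add_apply, Finset.sum_add_distrib, sum_of_mem_orb hη]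
      have hs := a3.2
      obtain ⟨j, hj0⟩ : ∃ j, ∑ i, lam i = j := ⟨_, rfl⟩
      have hj1 : ∑ i, mu i = j := hs ▸ hj0
      by_cases hj : e < j
      · have z1 : ∀ θ, ∑ η ∈ orb lam, F e Z (η + θ) = 0 := fun θ =>
          Finset.sum_eq_zero fun η hη => if_neg (by rw [hsum θ hη, hj0]; omega)
        have z2 : ∀ θ, ∑ η ∈ orb mu, F e Z (η + θ) = 0 := fun θ =>
          Finset.sum_eq_zero fun η hη => if_neg (by rw [hsum θ hη, hj1]; omega)
        simp only [z1, z2, mul_zero, sub_zero]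
        exact good_zero
      · have m1 := mem_orbs a1 (by omega)
        have m2 := mem_orbs a2 (by omega)
        have hp := pairs_ok _ m1 _ m2 (majL_of a3) (fun h => hne (List.ofFn_injective h))
        have h2 := h1 _ hp
        simp only [List.sum_ofFn, hj0] at h2
        have h3 := ih _ _ (by omega) (h2.resolve_left hj)
        have c1 : (0 : ℝ) < (orb lam).card := by exact_mod_cast orb_card_pos lam
        have c2 : (0 : ℝ) < (orb mu).card := by exact_mod_cast orb_card_pos mu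
        have h4 := h3.smul (c := (((orb lam).card : ℝ) * (orb mu).card)⁻¹) (inv_nonneg.mpr (mul_pos c1 c2).le)
        convert h4 using 2 with θ
        by_cases hθ : ∑ i, θ i = e - j
        · have z1 : ∑ η ∈ orb lam, F e Z (η + θ) = sumZ Z (code θ) (orbL (List.ofFn lam)) := by
            rw [← sum_orb_code]
            refine Finset.sum_congr rfl fun η hη => ?_
            rw [F, if_pos (by rw [hsum θ hη, hj0]; omega), code_add]
          have z2 : ∑ η ∈ orb mu, F e Z (η + θ) = sumZ Z (code θ) (orbL (List.ofFn mu)) := by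
            rw [← sum_orb_code]
            refine Finset.sum_congr rfl fun η hη => ?_
            rw [F, if_pos (by rw [hsum θ hη, hj1]; omega), code_add]
          rw [z1, z2, F, if_pos hθ, stepZ, ← card_orb, ← card_orb]
          rw [Int.cast_sub, Int.cast_mul, Int.cast_mul, Int.cast_natCast, Int.cast_natCast]
          exact aux_frac _ _ _ _ c1 c2
        · have z1 : ∑ η ∈ orb lam, F e Z (η + θ) = 0 :=
            Finset.sum_eq_zero fun η hη => if_neg (by rw [hsum θ hη, hj0]; omega)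
          have z2 : ∑ η ∈ orb mu, F e Z (η + θ) = 0 :=
            Finset.sum_eq_zero fun η hη => if_neg (by rw [hsum θ hη, hj1]; omega)
          rw [z1, z2, F, if_neg hθ, mul_zero, mul_zero, mul_zero, sub_zero]

theorem good_Z0 : Good (F 7 Z0) := good_of_chk 4 7 Z0 le_rfl chk_true

lemma Lz_monomialSymm (lam : Fin 5 → ℕ) (h : ∑ i, lam i = 7) :
    Lz (F 7 Z0) (monomialSymm lam) = sumZ Z0 0 (orbL (List.ofFn lam)) := by
  rw [monomialSymm_eq, map_sum, ← sum_orb_code]
  refine Finset.sum_congr rfl fun η hη => ?_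
  rw [Lz_xpow, F, if_pos (by rw [sum_of_mem_orb hη, h]), add_zero]

end Pool.Agent.P.MP_e74401_co
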